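import Pool.Agent.MP_00acf4_nt.Tw.Cls

/-! The frequency of a given gap between consecutive primes of `F_2[X]` in binary order. -/

set_option autoImplicit false

open Polynomial Finset Filter Topology
open scoped Classical BigOperators

noncomputable section
namespace Pool.Agent.HTW
open Pool.Agent.MP_a4a062_nt.C2 Pool.Agent.HGB Pool.Agent.HGS Pool.Agent.MP_b5e119_nt.GB

/-- The polynomial with the binary digits of `n` as coefficients. -/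
def dec (n : ℕ) : (ZMod 2)[X] := (enc_surj n).choose

theorem enc_dec (n : ℕ) : enc (dec n) = n := (enc_surj n).choose_spec

theorem dec_deg {n L : ℕ} (h : n < 2 ^ L) : (dec n).degree < L := by
  by_cases h0 : dec n = 0
  · rw [h0, degree_zero]
    exact WithBot.bot_lt_coe _
  exact (natDegree_lt_iff_degree_lt h0).1 ((Nat.pow_lt_pow_iff_right one_lt_two).1
    ((le_enc h0).trans_lt ((enc_dec n).trans_lt h)))

theorem nd_le {g : (ZMod 2)[X]} {l : ℕ} (h : g.degree < (l + 1 : ℕ)) : g.natDegree ≤ l := by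
  by_cases h0 : g = 0
  · simp [h0]
  exact Nat.lt_succ_iff.1 ((natDegree_lt_iff_degree_lt h0).2 h)

/-- The shift that adds `i` to the binary value in the class `r`. -/
def hs (r i : ℕ) : (ZMod 2)[X] := dec (r + i) - dec r

theorem hs_sub {r i d : ℕ} (h : i ≠ d) : hs r i - hs r d ≠ 0 := fun e => by
  rw [hs, hs, sub_sub_sub_cancel_right, sub_eq_zero] at e
  have := congrArg enc e
  rw [enc_dec, enc_dec] at this
  omega

theorem hs_ne {r i : ℕ} (h : i ≠ 0) : hs r i ≠ 0 := by simpa [hs] using hs_sub (r := r) h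

theorem hs_deg {r i l : ℕ} (h : r + i < 2 ^ (l + 1)) : (hs r i).natDegree ≤ l :=
  nd_le ((degree_sub_le _ _).trans_lt (max_lt (dec_deg h) (dec_deg (by omega))))

theorem pb_iff {P : (ZMod 2)[X]} : PB (enc P) ↔ Irreducible P :=
  ⟨fun ⟨_, h1, h2⟩ => enc_inj h2 ▸ h1, fun h => ⟨P, h, rfl⟩⟩

theorem k1 (P : (ZMod 2)[X]) (L : ℕ) : X ^ L ∣ P - dec (enc P % 2 ^ L) := by
  have r1 := modByMonic_add_div P (X ^ L)
  have r2 := degree_modByMonic_lt P (monic_X_pow L)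
  rw [degree_X_pow] at r2
  generalize P %ₘ X ^ L = g, P /ₘ X ^ L = v at r1 r2
  have r3 := enc_split v r2
  rw [add_comm, r1] at r3
  have : dec (enc P % 2 ^ L) = g :=
    enc_inj (by rw [enc_dec, r3, Nat.mul_add_mod, Nat.mod_eq_of_lt (enc_lt' r2)])
  rw [this, ← r1, add_sub_cancel_left]
  exact dvd_mul_right _ _

theorem k2 {P : (ZMod 2)[X]} {L r i : ℕ} (h : X ^ L ∣ P - dec r) (hi : r + i < 2 ^ L) :
    enc P % 2 ^ L = r ∧ enc (P + hs r i) = enc P + i := by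
  obtain ⟨u, hu⟩ := h
  have u1 : P = X ^ L * u + dec r := by rw [← hu, sub_add_cancel]
  have v1 := enc_split u (dec_deg (by omega : r < 2 ^ L))
  have v2 := enc_split u (dec_deg hi)
  rw [← u1, enc_dec] at v1
  rw [enc_dec] at v2
  refine ⟨by rw [v1, Nat.mul_add_mod, Nat.mod_eq_of_lt (by omega)], ?_⟩
  rw [show P + hs r i = X ^ L * u + dec (r + i) by rw [u1, hs]; ring, v2, v1, add_assoc]

/-- Pairs at distance `d` with the low digits in `R`. -/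
def PW (d m L : ℕ) (R : Finset ℕ) : Finset (ZMod 2)[X] :=
  {P ∈ prs (ZMod 2) m | PB (enc P + d) ∧ enc P % 2 ^ L ∈ R}

/-- Pairs at distance `d` with a carry beyond the digit `L`. -/
def OV (d m L : ℕ) : Finset (ZMod 2)[X] :=
  {P ∈ prs (ZMod 2) m | PB (enc P + d) ∧ 2 ^ L ≤ enc P % 2 ^ L + d}

theorem pw_card {d L : ℕ} (m : ℕ) {R : Finset ℕ} (h : ∀ r ∈ R, r + d < 2 ^ L) :
    #(PW d m L R) = ∑ r ∈ R, #(TC m L (dec r) (hs r d)) := by
  rw [card_eq_sum_card_fiberwise (f := fun P => enc P % 2 ^ L) (t := R)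
    fun P hP => (mem_filter.1 (mem_coe.1 hP)).2.2]
  refine sum_congr rfl fun r hr => congrArg _ ?_
  ext P
  simp only [PW, TC, mem_filter]
  constructor
  · rintro ⟨⟨p1, p2, -⟩, rfl⟩
    exact ⟨p1, k1 P L, pb_iff.1 (by rwa [(k2 (k1 P L) (h _ hr)).2])⟩
  · rintro ⟨p1, p2, p3⟩
    obtain ⟨a, b⟩ := k2 p2 (h r hr)
    exact ⟨⟨p1, b ▸ pb_iff.2 p3, a ▸ hr⟩, a⟩

theorem ov_step (d m L : ℕ) : OV d m L ⊆
    OV d m (L + 1) ∪ PW d m (L + 1) {r ∈ Ico (2 ^ L - d) (2 ^ L) | r + d < 2 ^ (L + 1)} := by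
  intro P hP
  obtain ⟨p1, p2, p3⟩ := mem_filter.1 hP
  by_cases h : 2 ^ (L + 1) ≤ enc P % 2 ^ (L + 1) + d
  · exact mem_union_left _ (mem_filter.2 ⟨p1, p2, h⟩)
  refine mem_union_right _ (mem_filter.2 ⟨p1, p2, mem_filter.2 ⟨mem_Ico.2 ?_, not_le.1 h⟩⟩)
  rw [← Nat.mod_mod_of_dvd _ (pow_dvd_pow 2 (Nat.le_succ L))] at p3
  generalize enc P % 2 ^ (L + 1) = r at *
  rw [pow_succ] at h
  by_cases a : r < 2 ^ L
  · rw [Nat.mod_eq_of_lt a] at p3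
    omega
  · rw [Nat.mod_eq_sub_mod (not_lt.1 a), Nat.mod_eq_of_lt (by omega)] at p3
    omega

theorem ov_triv (d : ℕ) {m L : ℕ} (h : L ≤ m) : (#(OV d m L) : ℝ) ≤ d * (2 ^ m / 2 ^ L) := by
  have a : ∀ r ∈ Ico (2 ^ L - d) (2 ^ L),
      (#{P ∈ mon (ZMod 2) m | X ^ L ∣ P + -dec r} : ℝ) ≤ 2 ^ m / 2 ^ L := fun r _ => by
    have := avgP (k := ZMod 2) (N := m) (U := fun _ => 1) (M := 1) (p := X ^ L) (fun _ _ => rfl)
      (pow_ne_zero _ X_ne_zero) isCoprime_one_left (by simpa using h) (-dec r)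
    rw [sum_boole, sum_const, nsmul_eq_mul, card_mon, ri, natDegree_X_pow, qq2] at this
    rw [this, mul_one, mul_one_div]
  have b := sum_le_card_nsmul _ _ _ a
  rw [nsmul_eq_mul, Nat.card_Ico, ← Nat.cast_sum] at b
  have c : #(OV d m L) ≤ ∑ r ∈ Ico (2 ^ L - d) (2 ^ L),
      #{P ∈ mon (ZMod 2) m | X ^ L ∣ P + -dec r} := by
    refine le_trans (card_le_card fun P hP => ?_) card_biUnion_le
    obtain ⟨p1, -, p3⟩ := mem_filter.1 hP
    have := Nat.mod_lt (enc P) (Nat.two_pow_pos L)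
    exact mem_biUnion.2 ⟨enc P % 2 ^ L, mem_Ico.2 ⟨by omega, this⟩,
      mem_filter.2 ⟨(mem_filter.1 p1).1, sub_eq_add_neg P _ ▸ k1 P L⟩⟩
  exact ((Nat.cast_le.2 c).trans b).trans (mul_le_mul_of_nonneg_right
    (Nat.cast_le.2 (by omega)) (by positivity))

theorem ov_tel {d : ℕ} (d0 : 0 < d) (L : ℕ) : ∀ᶠ m : ℕ in atTop, ∀ M, L ≤ M → M ^ 21 ≤ m →
    (m : ℝ) ^ 2 * #(OV d m L) ≤ (m : ℝ) ^ 2 * #(OV d m M) +
      d * 1536 * 2 ^ m * (2 * (L + 2) / 2 ^ L - 2 * (M + 2) / 2 ^ M) := by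
  filter_upwards [tc_le] with m H M hM
  induction M, hM using Nat.le_induction with
  | base => simp
  | succ M hM ih =>
    intro h
    have h1 : M ^ 21 ≤ m := (Nat.pow_le_pow_left (Nat.le_succ M) 21).trans h
    have h2 : M < m := (Nat.le_self_pow (by norm_num) (M + 1)).trans h
    have a := (card_le_card (ov_step d m M)).trans (card_union_le _ _)
    rw [pw_card m fun r hr => (mem_filter.1 hr).2] at a
    have b := sum_le_card_nsmul {r ∈ Ico (2 ^ M - d) (2 ^ M) | r + d < 2 ^ (M + 1)} _ _ fun r hr =>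
      H M (dec r) (hs r d) h1 h2 (nd_le (dec_deg ((Nat.le_add_right _ _).trans_lt
        (mem_filter.1 hr).2))) (hs_deg (mem_filter.1 hr).2) (hs_ne d0.ne')
    have c : (#{r ∈ Ico (2 ^ M - d) (2 ^ M) | r + d < 2 ^ (M + 1)} : ℝ) ≤ d :=
      Nat.cast_le.2 ((card_filter_le _ _).trans (by rw [Nat.card_Ico]; omega))
    rw [nsmul_eq_mul, ← mul_sum] at b
    have e := b.trans (mul_le_mul_of_nonneg_right c (by positivity))
    have f := mul_le_mul_of_nonneg_left ((Nat.cast_le (α := ℝ)).2 a) (sq_nonneg (m : ℝ))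
    have g : 2 * (((M + 1 : ℕ) : ℝ) + 2) / 2 ^ (M + 1) =
        2 * (M + 2) / 2 ^ M - (M + 1) / 2 ^ M := by
      push_cast
      field_simp
      ring
    have i := ih h1
    rw [Nat.cast_add, Nat.cast_sum] at f
    rw [g]
    linarith

theorem ov_tail {d : ℕ} (d0 : 0 < d) {ε : ℝ} (ε0 : 0 < ε) : ∃ l : ℕ, 1 ≤ l ∧ ∀ᶠ m : ℕ in atTop,
    (m : ℝ) ^ 2 * #(OV d m (l + 1)) ≤ ε * 2 ^ m := by
  have dR : (0 : ℝ) < d := by exact_mod_cast d0
  obtain ⟨L, h1, h2⟩ := (((tendsto_pow_const_div_const_pow_of_one_lt 1 (one_lt_two (α := ℝ))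
    ).eventually_le_const (by positivity : 0 < ε / 2 / (d * 1536 * 4))).and
      (eventually_ge_atTop 2)).exists
  obtain ⟨l, rfl⟩ : ∃ l, L = l + 1 := ⟨L - 1, by omega⟩
  refine ⟨l, by omega, ?_⟩
  generalize l + 1 = L at *
  obtain ⟨T, hT⟩ := eventually_atTop.1 (((tendsto_pow_const_div_const_pow_of_one_lt 42
    (one_lt_two (α := ℝ))).eventually_le_const (by positivity : 0 < ε / 2 / (d * 2 ^ 42))).and
      (eventually_ge_atTop L))
  filter_upwards [ov_tel d0 L, eventually_ge_atTop (T ^ 21)] with m H hm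
  obtain ⟨t, t1, t2, tT⟩ : ∃ t, t ^ 21 ≤ m ∧ m ≤ (t + 1) ^ 21 ∧ T ≤ t :=
    ⟨Nat.nthRoot 21 m, Nat.pow_nthRoot_le (Or.inl (by norm_num)),
      (Nat.lt_pow_nthRoot_add_one (by norm_num) m).le, (Nat.le_nthRoot_iff (by norm_num)).2 hm⟩
  obtain ⟨a1, a2⟩ := hT t tT
  have m2 : (m : ℝ) ^ 2 ≤ 2 ^ 42 * (t : ℝ) ^ 42 := by
    have a1 : (t + 1) ^ 21 ≤ (2 * t) ^ 21 := Nat.pow_le_pow_left (by omega) 21
    have a2 := Nat.pow_le_pow_left (t2.trans a1) 2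
    rw [← pow_mul, mul_pow] at a2
    exact_mod_cast a2
  have tm : t ≤ m := (Nat.le_self_pow (by norm_num) t).trans t1
  have b0 := ov_triv d tm
  have b1 : (m : ℝ) ^ 2 * #(OV d m t) ≤ 2 ^ 42 * (t : ℝ) ^ 42 * (d * (2 ^ m / 2 ^ t)) :=
    mul_le_mul m2 b0 (Nat.cast_nonneg _) ((sq_nonneg _).trans m2)
  have b2 := H t a2 t1
  clear t1 t2 tT hm H hT b0 m2 tm
  have L2 : (2 : ℝ) ≤ L := by exact_mod_cast h2
  have b3 : 2 * ((L : ℝ) + 2) / 2 ^ L - 2 * (t + 2) / 2 ^ t ≤ L ^ 1 / 2 ^ L * 4 := by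
    have c1 : 2 * ((L : ℝ) + 2) / 2 ^ L ≤ L ^ 1 * 4 / 2 ^ L :=
      div_le_div_of_nonneg_right (by linarith) (by positivity)
    have c2 : 0 ≤ 2 * ((t : ℝ) + 2) / 2 ^ t := by positivity
    rw [div_mul_eq_mul_div]
    linarith
  rw [le_div_iff₀ (by positivity)] at h1 a1
  have b4 := mul_le_mul_of_nonneg_left b3 (by positivity : (0 : ℝ) ≤ d * 1536 * 2 ^ m)
  have b5 := mul_le_mul_of_nonneg_right h1 (by positivity : (0 : ℝ) ≤ 2 ^ m)
  have b6 := mul_le_mul_of_nonneg_right a1 (by positivity : (0 : ℝ) ≤ 2 ^ m)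
  have b7 : 2 ^ 42 * (t : ℝ) ^ 42 * (d * (2 ^ m / 2 ^ t)) =
      (t : ℝ) ^ 42 / 2 ^ t * (d * 2 ^ 42) * 2 ^ m := by ring
  linarith

theorem gi_card (d m : ℕ) : #(GI d m) = #{P ∈ prs (ZMod 2) m | Gp d (enc P)} := by
  refine (card_nbij enc (fun P hP => ?_) enc_inj.injOn fun y hy => ?_).symm
  · obtain ⟨p1, p2⟩ := mem_filter.1 (mem_coe.1 hP)
    obtain ⟨-, p5, p6⟩ := mm_prs.1 p1
    exact mem_coe.2 (mem_filter.2 ⟨mem_Ico.2 ⟨p5 ▸ le_enc p6.ne_zero, p5 ▸ enc_lt P⟩, p2⟩)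
  · obtain ⟨y1, y2⟩ := mem_filter.1 (mem_coe.1 hy)
    obtain ⟨P, p1, rfl⟩ := y2.1
    obtain ⟨y3, y4⟩ := mem_Ico.1 y1
    have a := (Nat.pow_lt_pow_iff_right one_lt_two).1 (y3.trans_lt (enc_lt P))
    have b := (Nat.pow_lt_pow_iff_right one_lt_two).1 ((le_enc p1.ne_zero).trans_lt y4)
    exact ⟨P, mem_coe.2 (mem_filter.2 ⟨(by omega : P.natDegree = m) ▸ mem_prs2 p1, y2⟩), rfl⟩

theorem gi_near {d : ℕ} (d0 : 0 < d) {ε : ℝ} (ε0 : 0 < ε) : ∃ c : ℝ, ∀ᶠ m : ℕ in atTop,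
    |(m : ℝ) ^ 2 * #(GI d m) / 2 ^ m - c| ≤ ε := by
  obtain ⟨l, l1, hl⟩ := ov_tail d0 (half_pos ε0)
  set R : Finset ℕ := {r ∈ range (2 ^ (l + 1)) | r + d < 2 ^ (l + 1)} with hR
  have R1 : ∀ r ∈ R, r + d < 2 ^ (l + 1) := fun r hr => (mem_filter.1 hr).2
  have lim : ∀ r : ℕ, ∃ c, r ∈ R → Tendsto (fun m : ℕ => (m : ℝ) ^ 2 *
      #(TC m (l + 1) (dec r) (hs r d)) / 2 ^ m) atTop (𝓝 c) := fun r => by
    by_cases h : r ∈ R
    · obtain ⟨c, hc⟩ := tc_lim l (nd_le (dec_deg ((Nat.le_add_right _ _).trans_lt (R1 r h))))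
        (hs_deg (R1 r h)) (hs_ne d0.ne')
      exact ⟨c, fun _ => hc⟩
    · exact ⟨0, fun a => absurd a h⟩
  choose c hc using lim
  have K0 : (0 : ℝ) < #(R ×ˢ Ioo 0 d) + 1 := by positivity
  refine ⟨∑ r ∈ R, c r, ?_⟩
  filter_upwards [hl, Metric.tendsto_nhds.1 (tendsto_finsetSum R hc) _ (half_pos ε0),
    triple (k := ZMod 2) l l1 (div_pos (half_pos ε0) K0)] with m h1 h2 h3
  rw [Real.dist_eq, ← sum_div, ← mul_sum, ← Nat.cast_sum, ← pw_card m R1] at h2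
  have s1 : #(GI d m) ≤ #(PW d m (l + 1) R) + #(OV d m (l + 1)) := by
    rw [gi_card]
    refine (card_le_card fun P hP => ?_).trans (card_union_le _ _)
    obtain ⟨p1, p2⟩ := mem_filter.1 hP
    by_cases h : 2 ^ (l + 1) ≤ enc P % 2 ^ (l + 1) + d
    · exact mem_union_right _ (mem_filter.2 ⟨p1, p2.2.1, h⟩)
    · exact mem_union_left _ (mem_filter.2 ⟨p1, p2.2.1, mem_filter.2
        ⟨mem_range.2 (by omega), not_le.1 h⟩⟩)
  have s2 : #(PW d m (l + 1) R) ≤ #(GI d m) + ∑ x ∈ R ×ˢ Ioo 0 d, #{P ∈ mon (ZMod 2) m |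
      Irreducible P ∧ Irreducible (P + hs x.1 d) ∧ Irreducible (P + hs x.1 x.2)} := by
    rw [gi_card]
    refine le_trans ((card_le_card fun P hP => ?_).trans (card_union_le _ _))
      (Nat.add_le_add_left card_biUnion_le _)
    obtain ⟨p1, p2, p3⟩ := mem_filter.1 hP
    have p4 := (mem_filter.1 p1).2
    by_cases h : Gp d (enc P)
    · exact mem_union_left _ (mem_filter.2 ⟨p1, h⟩)
    have : ∃ w, enc P < w ∧ w < enc P + d ∧ PB w := by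
      by_contra a
      exact h ⟨pb_iff.2 p4, p2, fun w w1 w2 w3 => a ⟨w, w1, w2, w3⟩⟩
    obtain ⟨w, w1, w2, w3⟩ := this
    obtain ⟨i, rfl⟩ := Nat.exists_eq_add_of_le w1.le
    have r1 := R1 _ p3
    refine mem_union_right _ (mem_biUnion.2 ⟨(enc P % 2 ^ (l + 1), i),
      mem_product.2 ⟨p3, mem_Ioo.2 ⟨by omega, by omega⟩⟩, mem_filter.2 ⟨(mem_filter.1 p1).1, p4,
        pb_iff.1 ?_, pb_iff.1 ?_⟩⟩)
    · rwa [(k2 (k1 P _) r1).2]
    · rwa [(k2 (k1 P _) (by omega)).2]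
  have s3 := sum_le_card_nsmul (R ×ˢ Ioo 0 d) _ _ fun x hx => by
    have a := R1 _ (mem_product.1 hx).1
    have b := mem_Ioo.1 (mem_product.1 hx).2
    exact h3 (hs x.1 d) (hs x.1 x.2) (hs_ne d0.ne') (hs_ne b.1.ne') (hs_sub b.2.ne) (hs_deg a)
      (hs_deg (by omega))
  rw [nsmul_eq_mul, ← mul_sum, ← Nat.cast_sum, qq2] at s3
  have s4 : (#(R ×ˢ Ioo 0 d) : ℝ) * (ε / 2 / (#(R ×ˢ Ioo 0 d) + 1) * 2 ^ m) ≤ ε / 2 * 2 ^ m := by
    rw [← mul_assoc]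
    refine mul_le_mul_of_nonneg_right ?_ (by positivity)
    rw [← mul_div_assoc, div_le_iff₀ K0]
    linarith
  have s5 := mul_le_mul_of_nonneg_left ((Nat.cast_le (α := ℝ)).2 s1) (sq_nonneg (m : ℝ))
  have s6 := mul_le_mul_of_nonneg_left ((Nat.cast_le (α := ℝ)).2 s2) (sq_nonneg (m : ℝ))
  rw [Nat.cast_add, mul_add] at s5 s6
  have q0 : (0 : ℝ) < 2 ^ m := by positivity
  obtain ⟨h4, h5⟩ := abs_lt.1 h2
  rw [lt_sub_iff_add_lt, lt_div_iff₀ q0] at h4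
  rw [sub_lt_iff_lt_add, div_lt_iff₀ q0] at h5
  rw [abs_le, le_sub_iff_add_le, le_div_iff₀ q0, sub_le_iff_le_add, div_le_iff₀ q0]
  constructor <;> linarith

theorem gap_asym {d : ℕ} (hd : Even d) (d0 : 0 < d) : ∃ C : ℝ, 0 < C ∧
    Tendsto (fun m : ℕ => (m : ℝ) ^ 2 * #(GI d m) / 2 ^ m) atTop (𝓝 C) := by
  obtain ⟨C, hC⟩ := cauchySeq_tendsto_of_complete
    (u := fun m : ℕ => (m : ℝ) ^ 2 * #(GI d m) / 2 ^ m) (Metric.cauchySeq_iff.2 fun ε ε0 => by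
      obtain ⟨c, hc⟩ := gi_near d0 (by positivity : 0 < ε / 3)
      obtain ⟨N, hN⟩ := eventually_atTop.1 hc
      refine ⟨N, fun a ha b hb => ?_⟩
      have h1 := abs_le.1 (hN a ha)
      have h2 := abs_le.1 (hN b hb)
      rw [Real.dist_eq, abs_lt]
      constructor <;> linarith)
  obtain ⟨c, c0, hc⟩ := gap_deg hd d0
  refine ⟨C, c0.trans_le (ge_of_tendsto hC ?_), hC⟩
  filter_upwards [hc] with m h
  rwa [le_div_iff₀ (by positivity)]

end Pool.Agent.HTW
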