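import Pool.Agent.MP_00acf4_nt.Tw.Gap

/-! Prime pairs of `F_2[X]` with prescribed low coefficients. -/

set_option autoImplicit false

open Polynomial Finset Filter Topology
open scoped Classical BigOperators

noncomputable section
namespace Pool.Agent.HTW
open Pool.Agent.MP_a4a062_nt.C2 Pool.Agent.HGB Pool.Agent.HGS Pool.Agent.MP_b5e119_nt.GB

/-- Pairs `P`, `P + h` with `P` in a class modulo `X ^ L`. -/
def TC (m L : ℕ) (a h : (ZMod 2)[X]) : Finset (ZMod 2)[X] :=
  {P ∈ prs (ZMod 2) m | X ^ L ∣ P - a ∧ Irreducible (P + h)}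

/-- The singular series. -/
def SG (F : (ZMod 2)[X]) : ℝ := ∏' p : {p : (ZMod 2)[X] // p.Monic ∧ Irreducible p},
  (1 - nu F p * ri p.1) / (1 - ri p.1) ^ 2

theorem sg_le {F : (ZMod 2)[X]} (hF : F ≠ 0) {z : ℕ} (hz : 1 ≤ z) (h : F.natDegree ≤ z) :
    SG F ≤ 768 * z := by
  have hE := (pi_near (k := ZMod 2) hz 0).2.1
  rw [sum_range_zero, zero_add, pow_zero, mul_one] at hE
  refine le_of_tendsto (ss_lim hF) (eventually_atTop.2 ⟨z, fun M hM => le_trans ?_ hE⟩)
  have e : sp (ZMod 2) z = {p ∈ sp (ZMod 2) M | p.natDegree ≤ z} := by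
    ext p
    simp only [mem_filter, mem_sp]
    exact ⟨fun a => ⟨⟨a.1, a.2.1, a.2.2.trans hM⟩, a.2.2⟩, fun a => ⟨a.1.1, a.1.2.1, a.2⟩⟩
  rw [e, prod_filter, SS]
  refine prod_le_prod (fun p hp => div_nonneg (nu_ri (mem_sp.1 hp).2.1).1 (sq_nonneg _))
    fun p hp => ?_
  have r0 := ri_pos p
  have r1 := ri_le (mem_sp.1 hp).2.1
  have r3 : 0 < 1 - ri p := by linarith
  rw [div_le_iff₀ (by positivity)]
  by_cases a : p.natDegree ≤ z
  · rw [if_pos a, sq, inv_mul_cancel_left₀ r3.ne', nu]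
    split_ifs <;> linarith
  · rw [if_neg a, nu, if_neg fun b => a ((natDegree_le_of_dvd b hF).trans h)]
    nlinarith

theorem refl_even {m : ℕ} {D : (ZMod 2)[X]} (hm : D.natDegree + 3 ≤ m) :
    reflect m (X * (X + 1) * D) = X * (X + 1) * reflect (m - 3) D := by
  have r : reflect 3 (X * (X + 1) : (ZMod 2)[X]) = X * (X + 1) := by
    rw [show (X * (X + 1) : (ZMod 2)[X]) = X ^ 2 + X ^ 1 by ring, reflect_add, reflect_monomial,
      reflect_monomial, revAt_le (by norm_num), revAt_le (by norm_num), add_comm]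
  have := reflect_mul (X * (X + 1)) D (F := 3) (G := m - 3) (by rw [hdeg]; omega) (by omega)
  rwa [r, Nat.add_sub_cancel' (by omega)] at this

theorem sg_refl {m L : ℕ} {h : (ZMod 2)[X]} (hL : h.natDegree < L) (hm : L ≤ m) :
    SG (reflect m h) = SG (reflect L h) := by
  have e := reflect_mul 1 h (F := m - L) (G := L) (by simp) hL.le
  rw [one_mul, Nat.sub_add_cancel hm, reflect_one] at e
  have x : X ∣ reflect L h := X_dvd_iff.2 (by
    rw [coeff_reflect, revAt_zero]; exact coeff_eq_zero_of_natDegree_lt hL)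
  refine tprod_congr fun p => ?_
  have : p.1 ∣ reflect m h ↔ p.1 ∣ reflect L h := by
    rw [e, p.2.2.prime.dvd_mul]
    exact ⟨fun a => a.elim (fun b => (p.2.2.prime.dvd_of_dvd_pow b).trans x) id, Or.inr⟩
  simp only [nu, this]

theorem tc_asym {ε : ℝ} (ε0 : 0 < ε) : ∀ᶠ m : ℕ in atTop, ∀ (l : ℕ) (a h : (ZMod 2)[X]),
    l ^ 21 ≤ m → l < m → a.natDegree ≤ l → h.natDegree ≤ l → a.coeff 0 = 1 → h ≠ 0 →
    X * (X + 1) ∣ h → 0 < SG (reflect (l + 1) h) ∧
      |(m : ℝ) ^ 2 * #(TC m (l + 1) a h) / 2 ^ (m - l) / SG (reflect (l + 1) h) - 1| ≤ ε := by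
  filter_upwards [topS (k := ZMod 2) ε0, eventually_ge_atTop 2] with m H m2 l a h m1 lm da dh ha h1 h2
  obtain ⟨D, rfl⟩ := h2
  have hD : D ≠ 0 := right_ne_zero_of_mul h1
  have h0 : (X * (X + 1) : (ZMod 2)[X]) ≠ 0 := left_ne_zero_of_mul h1
  have dD := natDegree_mul h0 hD
  rw [hdeg] at dD
  have e : ∀ F g : (ZMod 2)[X], F - g = g + F := fun F g => by rw [CharTwo.sub_eq_add, add_comm]
  have hF := refl_even (m := m) (D := D) (by omega)
  have F0 : reflect m (X * (X + 1) * D) ≠ 0 := mt reflect_eq_zero_iff.1 h1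
  have dF : (reflect m (X * (X + 1) * D)).natDegree < m := by
    have b1 := natDegree_mul_le (p := X * (X + 1)) (q := reflect (m - 3) D)
    have b2 := natDegree_reflect_le (N := m - 3) (p := D)
    rw [hF]
    rw [hdeg] at b1
    omega
  have Ev : Even2 (ZMod 2) (reflect m (X * (X + 1) * D)) := fun _ => hF ▸ dvd_mul_right _ _
  have hA : reflect m a ∈ mon (ZMod 2) m := by
    have b1 : (reflect m a).natDegree ≤ m := natDegree_reflect_le.trans (max_le le_rfl (by omega))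
    have b2 : (reflect m a).coeff m = 1 := by rw [coeff_reflect, revAt_le le_rfl, Nat.sub_self, ha]
    exact mem_mon.2 ⟨monic_of_natDegree_le_of_coeff_eq_one m b1 b2,
      natDegree_eq_of_le_of_coeff_ne_zero b1 (b2 ▸ one_ne_zero)⟩
  have hg : ∀ g ∈ mon (ZMod 2) m, reflect m (X * (X + 1) * D) - g ∈ mon (ZMod 2) m := fun g hg => by
    obtain ⟨b1, b2⟩ := mem_mon.1 hg
    rw [e]
    refine mem_mon.2 ⟨b1.add_of_left (degree_lt_degree (by omega)), ?_⟩
    rw [natDegree_add_eq_left_of_natDegree_lt (by omega), b2]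
  have b1 := H l m _ _ m1 hA F0 (by omega) le_rfl (by omega) hg Ev
  have b3 := (Real.exp_pos _).trans_le (ge_of_tendsto' (ss_lim F0) (ss_ge Ev))
  have c : #{g ∈ prs (ZMod 2) m | (g - reflect m a).degree < (m - l : ℕ) ∧
      Irreducible (reflect m (X * (X + 1) * D) - g)} = #(TC m (l + 1) a (X * (X + 1) * D)) := by
    refine card_nbij' (reflect m) (reflect m) (fun g hg' => ?_) (fun g hg' => ?_)
      (fun _ _ => reflect_reflect) fun _ _ => reflect_reflect
    · obtain ⟨g1, g2, g3⟩ := mem_filter.1 (mem_coe.1 hg')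
      obtain ⟨g4, g5, g6⟩ := mm_prs.1 g1
      refine mem_coe.2 (mem_filter.2 ⟨refl_irr g6 g5 m2, X_pow_dvd_iff.2 fun i hi => ?_, ?_⟩)
      · rw [← reflect_reflect (N := m) (p := a), ← reflect_sub, coeff_reflect, revAt_le (by omega)]
        exact coeff_eq_zero_of_degree_lt (g2.trans_le (by exact_mod_cast (by omega)))
      · have := (mm_prs.1 (refl_irr g3 (mem_mon.1 (hg g (mem_mon.2 ⟨g4, g5⟩))).2 m2)).2.2
        rwa [reflect_sub, reflect_reflect, e] at this
    · obtain ⟨g1, g2, g3⟩ := mem_filter.1 (mem_coe.1 hg')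
      obtain ⟨g4, g5, g6⟩ := mm_prs.1 g1
      refine mem_coe.2 (mem_filter.2 ⟨refl_irr g6 g5 m2, (degree_lt_iff_coeff_zero _ _).2
        fun i hi => ?_, ?_⟩)
      · rw [← reflect_sub]
        by_cases hi2 : i ≤ m
        · rw [coeff_reflect, revAt_le hi2]
          exact X_pow_dvd_iff.1 g2 _ (by omega)
        · have b1 := natDegree_reflect_le (N := m) (p := g - a)
          have b2 := natDegree_sub_le g a
          exact coeff_eq_zero_of_natDegree_lt (by omega)
      · have := (mm_prs.1 (refl_irr g3 (by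
          rw [natDegree_add_eq_left_of_natDegree_lt (by omega), g5]) m2)).2.2
        rwa [reflect_add, ← e] at this
  rw [c, qq2, ← sq] at b1
  rw [← sg_refl (m := m) (by omega) (by omega)]
  exact ⟨b3, b1⟩

theorem irr_ev {g : (ZMod 2)[X]} (h : Irreducible g) (h2 : 2 ≤ g.natDegree) (c : ZMod 2) :
    g.eval c = 1 := z2 _ fun e => by
  have : g.natDegree = 1 :=
    natDegree_eq_of_degree_eq_some (degree_eq_one_of_irreducible_of_root h e)
  omega

theorem tc_adm {m l : ℕ} {a h : (ZMod 2)[X]} (m2 : 2 ≤ m) (dh : h.natDegree < m)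
    (hn : (TC m (l + 1) a h).Nonempty) : a.coeff 0 = 1 ∧ X * (X + 1) ∣ h := by
  obtain ⟨P, hP⟩ := hn
  obtain ⟨p1, p2, p3⟩ := mem_filter.1 hP
  obtain ⟨-, p5, p6⟩ := mm_prs.1 p1
  have e1 := irr_ev p6 (by omega)
  have e2 := irr_ev p3 (by rw [natDegree_add_eq_left_of_natDegree_lt (by omega)]; omega)
  have e3 : ∀ c, h.eval c = 0 := fun c => by simpa [e1 c] using e2 c
  constructor
  · have := X_pow_dvd_iff.1 p2 0 (by omega)
    rw [coeff_sub, sub_eq_zero] at this
    rw [← this, coeff_zero_eq_eval_zero, e1]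
  · obtain ⟨g, rfl⟩ := X_dvd_iff.2 ((coeff_zero_eq_eval_zero h).trans (e3 0))
    have := dvd_iff_isRoot.2 (show g.IsRoot 1 by simpa using e3 1)
    rw [CharTwo.sub_eq_add, C_1] at this
    exact mul_dvd_mul_left _ this

theorem tc_le : ∀ᶠ m : ℕ in atTop, ∀ (l : ℕ) (a h : (ZMod 2)[X]),
    l ^ 21 ≤ m → l < m → a.natDegree ≤ l → h.natDegree ≤ l → h ≠ 0 →
    (m : ℝ) ^ 2 * #(TC m (l + 1) a h) ≤ 1536 * ((l + 1) / 2 ^ l) * 2 ^ m := by
  filter_upwards [tc_asym one_pos, eventually_ge_atTop 2] with m H m2 l a h m1 lm da dh h1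
  rcases (TC m (l + 1) a h).eq_empty_or_nonempty with e | e
  · rw [e, card_empty, Nat.cast_zero, mul_zero]
    positivity
  obtain ⟨b1, b2⟩ := tc_adm m2 (by omega) e
  obtain ⟨c1, c2⟩ := H l a h m1 lm da dh b1 h1 b2
  have c3 := sg_le (F := reflect (l + 1) h) (mt reflect_eq_zero_iff.1 h1) (z := l + 1) (by omega)
    (natDegree_reflect_le.trans (max_le le_rfl (by omega)))
  have c4 := (abs_le.1 c2).2
  have p2 : (2 : ℝ) ^ m = 2 ^ l * 2 ^ (m - l) := by rw [← pow_add, Nat.add_sub_cancel' lm.le]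
  rw [sub_le_iff_le_add, div_le_iff₀ c1, div_le_iff₀ (by positivity)] at c4
  have c5 := mul_le_mul_of_nonneg_right c3 (by positivity : (0 : ℝ) ≤ 2 ^ (m - l))
  push_cast at c5
  rw [p2, mul_assoc, ← mul_assoc (_ / _), div_mul_cancel₀ _ (by positivity)]
  linarith

theorem tc_lim (l : ℕ) {a h : (ZMod 2)[X]} (da : a.natDegree ≤ l) (dh : h.natDegree ≤ l)
    (h1 : h ≠ 0) :
    ∃ c, Tendsto (fun m : ℕ => (m : ℝ) ^ 2 * #(TC m (l + 1) a h) / 2 ^ m) atTop (𝓝 c) := by
  by_cases b : a.coeff 0 = 1 ∧ X * (X + 1) ∣ h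
  · have t : Tendsto (fun m : ℕ => (m : ℝ) ^ 2 * #(TC m (l + 1) a h) / 2 ^ (m - l) /
        SG (reflect (l + 1) h)) atTop (𝓝 1) := by
      refine Metric.tendsto_nhds.2 fun ε ε0 => ?_
      filter_upwards [tc_asym (half_pos ε0), eventually_ge_atTop (l ^ 21), eventually_gt_atTop l]
        with m H m1 lm
      exact (H l a h m1 lm da dh b.1 h1 b.2).2.trans_lt (half_lt_self ε0)
    refine ⟨_, (t.mul_const (SG (reflect (l + 1) h) / 2 ^ l)).congr' ?_⟩
    filter_upwards [tc_asym one_pos, eventually_ge_atTop (l ^ 21), eventually_gt_atTop l]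
      with m H m1 lm
    have c1 := (H l a h m1 lm da dh b.1 h1 b.2).1
    have p2 : (2 : ℝ) ^ m = 2 ^ l * 2 ^ (m - l) := by rw [← pow_add, Nat.add_sub_cancel' lm.le]
    rw [p2]
    field_simp
  · refine ⟨0, tendsto_const_nhds.congr' ?_⟩
    filter_upwards [eventually_ge_atTop 2, eventually_gt_atTop l] with m m2 lm
    rw [not_nonempty_iff_eq_empty.1 fun e => b (tc_adm m2 (by omega) e)]
    simp

end Pool.Agent.HTW
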