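import Pool.Agent.MP_00acf4_nt.Tw.Asym

/-! A lower bound for the sum of the reciprocal gaps between the primes of `F_2[X]`. -/

set_option autoImplicit false

open Polynomial Finset Filter Topology
open scoped Classical BigOperators

noncomputable section
namespace Pool.Agent.HTW
open Pool.Agent.MP_a4a062_nt.C2 Pool.Agent.HGB Pool.Agent.HGS Pool.Agent.MP_b5e119_nt.GB

section
variable {k : Type} [Field k] [Fintype k]

theorem main3u {z j : ℕ} {a b : k[X]} (hz : 1 ≤ z) (hj : 1 ≤ j) (ha : a ≠ 0) (hb : b ≠ 0)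
    (hab : b - a ≠ 0) (da : a.natDegree ≤ j) (db : b.natDegree ≤ j) :
    ∏ p ∈ sp k z, (1 - e3 a b p) ≤ (768 * j) ^ 2 / (z : ℝ) ^ 3 := by
  have q2 := two_le_qq (k := k)
  have dab : (b - a).natDegree ≤ j := (natDegree_sub_le _ _).trans (max_le db da)
  have hE := (pi_near (k := k) hz (z + 1)).1
  rw [sum_congr rfl fun i hi => fr_one (k := k) (· ≤ z) i fun d _ h =>
    h.trans (Nat.lt_succ_iff.1 (mem_range.1 hi)), sum_const, card_range, nsmul_eq_mul, mul_one,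
    prod_inv_distrib] at hE
  have hJ := (pi_near (k := k) hj 0).2.1
  rw [sum_range_zero, zero_add, pow_zero, mul_one] at hJ
  have z0 : (0 : ℝ) < z := by exact_mod_cast hz
  have P0 : 0 < ∏ p ∈ sp k z, (1 - ri p) :=
    prod_pos fun p hp => by linarith [ri_le (mem_sp.1 hp).2.1]
  have P1 : ∏ p ∈ sp k z, (1 - ri p) ≤ 1 / z := by
    rw [one_div, le_inv_comm₀ P0 z0]
    push_cast at hE
    linarith
  have i1 : ∀ p : k[X], Irreducible p → 1 ≤ (1 - ri p)⁻¹ := fun p hp =>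
    (one_le_inv₀ (by linarith [ri_le hp])).2 (by linarith [ri_pos p])
  have P2 : ∏ p ∈ sp k z, (if p.natDegree ≤ j then (1 - ri p)⁻¹ else 1) ≤ 768 * j := by
    rw [← prod_filter]
    refine le_trans (prod_le_prod_of_subset_of_one_le (fun p hp => ?_)
      (fun p hp => zero_le_one.trans (i1 p (mem_sp.1 (mem_filter.1 hp).1).2.1))
      fun p hp _ => i1 p (mem_sp.1 hp).2.1) hJ
    obtain ⟨h1, h2⟩ := mem_filter.1 hp
    exact mem_sp.2 ⟨(mem_sp.1 h1).1, (mem_sp.1 h1).2.1, h2⟩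
  have P3 : 0 ≤ ∏ p ∈ sp k z, (if p.natDegree ≤ j then (1 - ri p)⁻¹ else 1) :=
    prod_nonneg fun p hp => by
      have := i1 p (mem_sp.1 hp).2.1
      split_ifs <;> linarith
  refine (le_abs_self _).trans ?_
  rw [abs_prod]
  refine le_trans (prod_le_prod (g := fun p => (if p.natDegree ≤ j then (1 - ri p)⁻¹ else 1) ^ 2 *
    (1 - ri p) ^ 3) (fun p _ => abs_nonneg _) fun p hp => ?_) ?_
  · have a1 := ri_pos p
    have b1 := ri_le (mem_sp.1 hp).2.1
    obtain ⟨c1, c2⟩ := e3_bd a b p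
    split_ifs with h
    · have c3 : ri p ≤ e3 a b p := by
        unfold e3
        split_ifs <;> linarith
      have c4 : 1 - ri p ≠ 0 := by linarith
      rw [show (1 - ri p)⁻¹ ^ 2 * (1 - ri p) ^ 3 = 1 - ri p by field_simp, abs_le]
      constructor <;> linarith
    · have n : ∀ c : k[X], c ≠ 0 → c.natDegree ≤ j → ¬ p ∣ c := fun c h1 h2 h3 =>
        h ((natDegree_le_of_dvd h3 h1).trans h2)
      have e : e3 a b p = 3 * ri p := by
        rw [e3, if_neg (n a ha da), if_neg (not_or.2 ⟨n b hb db, n _ hab dab⟩)]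
        ring
      have r4 : ri p ≤ 1 / 4 := by
        have h1 : qq k ^ 2 ≤ qq k ^ p.natDegree := pow_le_pow_right₀ (by linarith) (by omega)
        unfold ri
        exact one_div_le_one_div_of_le (by norm_num) (by nlinarith)
      have d := one_add_mul_le_pow (a := -ri p) (by linarith) 3
      push_cast at d
      rw [e, abs_of_nonneg (by linarith), one_pow, one_mul, sub_eq_add_neg 1 (ri p)]
      linarith
  · rw [prod_mul_distrib, prod_pow, prod_pow, div_eq_mul_one_div, ← one_div_pow]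
    exact mul_le_mul (pow_le_pow_left₀ P3 P2 2) (pow_le_pow_left₀ P0.le P1 3) (by positivity)
      (by positivity)

theorem tripleU : ∀ᶠ t : ℕ in atTop, ∀ (m j : ℕ) (a b : k[X]), t ^ 10 ≤ m → m ≤ (t + 1) ^ 10 →
    1 ≤ j → j < m → a ≠ 0 → b ≠ 0 → b - a ≠ 0 → a.natDegree ≤ j → b.natDegree ≤ j →
    (m : ℝ) ^ 2 * #{x ∈ mon k m | Irreducible x ∧ Irreducible (x + a) ∧ Irreducible (x + b)} ≤
      2 ^ 41 * (j : ℝ) ^ 2 / t * qq k ^ m := by
  have q0 := qpos (k := k)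
  filter_upwards [(tendsto_pow_const_div_const_pow_of_one_lt 63
    (by norm_num : (1 : ℝ) < 4)).eventually_le_const
      (by positivity : (0 : ℝ) < 1 / (2 ^ 20 * 768 ^ 6)), eventually_ge_atTop 2]
    with t h1 h3 m j a b t1 t2 hj jm ha hb hab da db
  have p7 : t ≤ t ^ 7 := Nat.le_self_pow (by norm_num) t
  have p8 : 2 * t * t ^ 7 ≤ m := by
    have : 2 * t * t ^ 7 = 2 * t ^ 8 := by ring
    have : 2 * t ^ 8 ≤ t ^ 2 * t ^ 8 := Nat.mul_le_mul_right _ (by nlinarith)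
    have : t ^ 2 * t ^ 8 = t ^ 10 := by ring
    omega
  have zm : t ^ 7 < m := by nlinarith
  have z1 : 1 ≤ t ^ 7 := by omega
  have m2 : (m : ℝ) ^ 2 ≤ 2 ^ 20 * (t : ℝ) ^ 20 := by
    have a1 : (t + 1) ^ 10 ≤ (2 * t) ^ 10 := Nat.pow_le_pow_left (by omega) 10
    have a2 := Nat.pow_le_pow_left (t2.trans a1) 2
    rw [← pow_mul, mul_pow] at a2
    exact_mod_cast a2
  have s1 : (#{x ∈ mon k m | Irreducible x ∧ Irreducible (x + a) ∧ Irreducible (x + b)} : ℝ) ≤
      #{x ∈ mon k m | Rough (t ^ 7) (x * (x + a) * (x + b))} := by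
    refine Nat.cast_le.2 (card_le_card fun x hx => ?_)
    obtain ⟨x1, x2, x3, x4⟩ := mem_filter.1 hx
    have x5 := (mem_mon.1 x1).2
    refine mem_filter.2 ⟨x1, rough_mul.2 ⟨rough_mul.2 ⟨rough_irr x2 (by omega), rough_irr x3 ?_⟩,
      rough_irr x4 ?_⟩⟩ <;> rw [natDegree_add_eq_left_of_natDegree_lt (by omega)] <;> omega
  have s2 := sieve3 a b p8
  have s3 := main3u z1 hj ha hb hab da db
  have hE := (pi_near (k := k) z1 0).2.1
  have hE0 : 0 ≤ ∏ p ∈ sp k (t ^ 7), (1 - ri p)⁻¹ :=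
    (sum_nonneg fun i _ => frD_nonneg _ i).trans (pi_near (k := k) z1 0).1
  rw [sum_range_zero, zero_add, pow_zero, mul_one] at hE
  have t0 : (0 : ℝ) < t := by exact_mod_cast (by omega : 0 < t)
  have j1 : (1 : ℝ) ≤ j := by exact_mod_cast hj
  clear t1 t2 p7 p8 zm z1
  have s4 := div_le_div_of_nonneg_right (pow_le_pow_left₀ hE0 hE 6) (by positivity : (0 : ℝ) ≤ 4 ^ t)
  push_cast at s3 s4
  have s5 := (s1.trans s2).trans (mul_le_mul_of_nonneg_left (add_le_add s3 s4) (by positivity))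
  refine (mul_le_mul m2 s5 (Nat.cast_nonneg _) ((sq_nonneg _).trans m2)).trans ?_
  rw [mul_left_comm, mul_comm _ (qq k ^ m)]
  refine mul_le_mul_of_nonneg_left ?_ (pow_pos q0 m).le
  rw [le_div_iff₀ (by norm_num)] at h1
  have c1 : 2 ^ 20 * (t : ℝ) ^ 20 * ((768 * (j : ℝ)) ^ 2 / ((t : ℝ) ^ 7) ^ 3 +
      (768 * (t : ℝ) ^ 7) ^ 6 / 4 ^ t) = (2 ^ 20 * 768 ^ 2 * (j : ℝ) ^ 2 +
        (t : ℝ) ^ 63 / 4 ^ t * (2 ^ 20 * 768 ^ 6)) / t := by
    field_simp
  rw [c1]
  refine div_le_div_of_nonneg_right ?_ t0.le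
  have := one_le_pow₀ (n := 2) j1
  linarith

end

/-- The smaller members of the pairs `P`, `P + h` of degree `m`. -/
def SM (m : ℕ) (h : (ZMod 2)[X]) : Finset (ZMod 2)[X] :=
  {P ∈ prs (ZMod 2) m | Irreducible (P + h) ∧ enc P < enc (P + h)}

theorem sm_low : ∀ᶠ m : ℕ in atTop, ∀ h : (ZMod 2)[X], h ≠ 0 → h.natDegree < m →
    X * (X + 1) ∣ h → Real.exp (-10) / 4 * 2 ^ m ≤ (m : ℝ) ^ 2 * #(SM m h) := by
  filter_upwards [top4 (Pool.Agent.MP_b5e119_nt.BK.hiv (ZMod 2)) (hm1 (ZMod 2)) (hm2 (ZMod 2))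
    (by norm_num : (0 : ℝ) < 1 / 2)] with m H F h1 h2 h3
  have e : ∀ g : (ZMod 2)[X], F - g = g + F := fun g => by rw [CharTwo.sub_eq_add, add_comm]
  have hg : ∀ g ∈ mon (ZMod 2) m, g + F ∈ mon (ZMod 2) m := fun g hg => by
    obtain ⟨b1, b2⟩ := mem_mon.1 hg
    refine mem_mon.2 ⟨b1.add_of_left (degree_lt_degree (by omega)), ?_⟩
    rw [natDegree_add_eq_left_of_natDegree_lt (by omega), b2]
  have a := (abs_le.1 (H m F h1 (by omega) le_rfl (by omega) (fun g b => e g ▸ hg g b)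
    fun _ => h3)).1
  have b3 := ge_of_tendsto' (ss_lim h1) (ss_ge (F := F) fun _ => h3)
  have ee : ∀ P : (ZMod 2)[X], P + F + F = P := fun P => by
    rw [add_assoc, CharTwo.add_self_eq_zero, add_zero]
  have b : #{g ∈ prs (ZMod 2) m | Irreducible (F - g)} ≤ #(SM m F) + #(SM m F) := by
    refine le_trans (card_le_card (t := SM m F ∪ (SM m F).image (· + F)) fun P hP => ?_)
      ((card_union_le _ _).trans (Nat.add_le_add_left card_image_le _))
    obtain ⟨p1, p2⟩ := mem_filter.1 hP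
    rw [e] at p2
    rcases lt_trichotomy (enc P) (enc (P + F)) with c | c | c
    · exact mem_union_left _ (mem_filter.2 ⟨p1, p2, c⟩)
    · exact absurd (by simpa using enc_inj c) h1
    · refine mem_union_right _ (mem_image.2 ⟨_, mem_filter.2 ⟨?_, ?_⟩, ee P⟩)
      · exact mem_filter.2 ⟨hg P (mem_filter.1 p1).1, p2⟩
      · rw [ee]
        exact ⟨(mem_filter.1 p1).2, c⟩
  have b' := mul_le_mul_of_nonneg_left ((Nat.cast_le (α := ℝ)).2 b)
    (by positivity : (0 : ℝ) ≤ (m : ℝ) * m)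
  have e0 := Real.exp_pos (-10)
  generalize ∏' p : {p : (ZMod 2)[X] // p.Monic ∧ Irreducible p},
    (1 - nu F p * ri p.1) / (1 - ri p.1) ^ 2 = T at *
  have T0 : 0 < T := e0.trans_le b3
  rw [qq2, le_sub_iff_add_le, le_div_iff₀ T0, le_div_iff₀ (by positivity)] at a
  have b4 := mul_le_mul_of_nonneg_right b3 (by positivity : (0 : ℝ) ≤ 2 ^ m)
  push_cast at b'
  rw [sq]
  linarith

/-- The term that follows the term `y`. -/
def nx (y : ℕ) : ℕ := Nat.nth PB (Nat.count PB y + 1)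

theorem nx_le {y w : ℕ} (hy : PB y) (hw : PB w) (h : y < w) : nx y ≤ w := by
  have b := Nat.nth_monotone pb_inf (Nat.succ_le_of_lt (Nat.count_strict_mono hy h))
  rwa [Nat.nth_count hw] at b

theorem lt_nx {y : ℕ} (hy : PB y) : y < nx y := by
  have := Nat.nth_strictMono pb_inf (Nat.lt_succ_self (Nat.count PB y))
  rwa [Nat.nth_count hy] at this

/-- The primes of degree `m` followed by a gap below `2 ^ j`. -/
def NG (m j : ℕ) : Finset (ZMod 2)[X] := {P ∈ prs (ZMod 2) m | nx (enc P) < enc P + 2 ^ j}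

theorem ng_low : ∀ᶠ m : ℕ in atTop, ∀ j, j + 3 ≤ Nat.log 2 m / 40 →
    Real.exp (-10) / 8 * 2 ^ j * 2 ^ m ≤ (m : ℝ) ^ 2 * #(NG m (j + 3)) := by
  have e0 := Real.exp_pos (-10)
  obtain ⟨T, hT⟩ := eventually_atTop.1 (tripleU (k := ZMod 2))
  obtain ⟨J, hJ⟩ := pow_unbounded_of_one_lt (2 ^ 45 / Real.exp (-10)) (one_lt_two (α := ℝ))
  filter_upwards [sm_low, eventually_ge_atTop (T ^ 10), eventually_ge_atTop (2 ^ (J * 40))]
    with m H hm hm2 j hj
  obtain ⟨t, t1, t2, tT⟩ : ∃ t, t ^ 10 ≤ m ∧ m ≤ (t + 1) ^ 10 ∧ T ≤ t :=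
    ⟨Nat.nthRoot 10 m, Nat.pow_nthRoot_le (Or.inl (by norm_num)),
      (Nat.lt_pow_nthRoot_add_one (by norm_num) m).le, (Nat.le_nthRoot_iff (by norm_num)).2 hm⟩
  have m0 : m ≠ 0 := by have := Nat.two_pow_pos (J * 40); omega
  have l1 := (Nat.le_div_iff_mul_le (by norm_num)).2 (Nat.le_log_of_pow_le one_lt_two hm2)
  have l2 := (Nat.pow_le_pow_right two_pos (Nat.div_mul_le_self (Nat.log 2 m) 40)).trans
    (Nat.pow_log_le_self 2 m0)
  generalize Nat.log 2 m / 40 = K at hj l1 l2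
  have l3 : 16 ^ K ≤ t + 1 := by
    refine (Nat.pow_le_pow_iff_left (n := 10) (by norm_num)).1 (le_trans (le_of_eq ?_) (l2.trans t2))
    rw [show 16 = 2 ^ 4 by norm_num, ← pow_mul, ← pow_mul]
    congr 1
    ring
  have l4 : j + 3 < m := by
    have := Nat.lt_two_pow_self (n := K * 40)
    omega
  have l5 : 16 ^ 1 ≤ 16 ^ K := Nat.pow_le_pow_right (by norm_num) (by omega)
  have H3 := fun a b => hT t tT m (j + 2) a b t1 t2 (by omega) (by omega)
  have num : 2 ^ j * (2 ^ 41 * ((j + 2 : ℕ) : ℝ) ^ 2 / t) ≤ Real.exp (-10) / 8 := by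
    have a1 : (16 : ℝ) ^ K ≤ 2 * t := by exact_mod_cast (by omega : 16 ^ K ≤ 2 * t)
    have a2 : ((j + 2 : ℕ) : ℝ) ≤ 2 ^ K := by
      exact_mod_cast (by have := Nat.lt_two_pow_self (n := K); omega : j + 2 ≤ 2 ^ K)
    have a3 : (2 : ℝ) ^ j ≤ 2 ^ K := pow_le_pow_right₀ one_le_two (by omega)
    have a4 : (2 : ℝ) ^ J ≤ 2 ^ K := pow_le_pow_right₀ one_le_two l1
    have t0 : (0 : ℝ) < t := by exact_mod_cast (by omega : 0 < t)
    rw [show (16 : ℝ) = 2 ^ 4 by norm_num, ← pow_mul, mul_comm 4, pow_mul] at a1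
    rw [div_lt_iff₀ e0] at hJ
    have a5 := mul_le_mul a3 (pow_le_pow_left₀ (Nat.cast_nonneg _) a2 2) (sq_nonneg _)
      (pow_pos two_pos K).le
    have a6 := hJ.le.trans (mul_le_mul_of_nonneg_right a4 e0.le)
    have y0 := pow_pos (two_pos (α := ℝ)) K
    rw [← mul_div_assoc, div_le_iff₀ t0]
    generalize (2 : ℝ) ^ K = Y at a1 a5 a6 y0
    have a7 := mul_le_mul_of_nonneg_left a6 (pow_pos y0 3).le
    have a8 := mul_le_mul_of_nonneg_left a1 e0.le
    linarith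
  clear hT t1 t2 tT hm hm2 l1 l2 l3 l5 hJ
  have h0 : (X * (X + 1) : (ZMod 2)[X]) ≠ 0 := fun h => by simpa [h] using hdeg
  have dD : ∀ D ∈ mon (ZMod 2) j, X * (X + 1) * D ≠ 0 ∧ (X * (X + 1) * D).natDegree = j + 2 :=
    fun D hD => by
      obtain ⟨a, b⟩ := mem_mon.1 hD
      exact ⟨mul_ne_zero h0 a.ne_zero, by rw [natDegree_mul h0 a.ne_zero, hdeg, b, add_comm]⟩
  have s1 : ∑ D ∈ mon (ZMod 2) j, #(SM m (X * (X + 1) * D)) ≤ #(NG m (j + 3)) +
      ∑ D ∈ mon (ZMod 2) j, ∑ E ∈ (mon (ZMod 2) j).erase D, #{x ∈ mon (ZMod 2) m | Irreducible x ∧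
        Irreducible (x + X * (X + 1) * D) ∧ Irreducible (x + X * (X + 1) * E)} := by
    set U : (ZMod 2)[X] → Finset (ZMod 2)[X] := fun D => {P ∈ SM m (X * (X + 1) * D) |
      ∀ E ∈ (mon (ZMod 2) j).erase D, P ∉ SM m (X * (X + 1) * E)} with hU
    have u1 : ∑ D ∈ mon (ZMod 2) j, #(U D) ≤ #(NG m (j + 3)) := by
      rw [← card_biUnion (t := U) fun D hD E hE n => disjoint_left.2 fun P p1 p2 =>
        (mem_filter.1 p1).2 E (mem_erase.2 ⟨n.symm, hE⟩) (mem_filter.1 p2).1]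
      refine card_le_card fun P hP => ?_
      obtain ⟨D, hD, hP⟩ := mem_biUnion.1 hP
      obtain ⟨p1, p2, p3⟩ := mem_filter.1 (mem_filter.1 hP).1
      have a := nx_le (pb_iff.2 (mem_filter.1 p1).2) (pb_iff.2 p2) p3
      have b := enc_add P (X * (X + 1) * D)
      have c := enc_lt (X * (X + 1) * D)
      rw [(dD D hD).2] at c
      exact mem_filter.2 ⟨p1, (a.trans b).trans_lt (Nat.add_lt_add_left c _)⟩
    refine le_trans ?_ (Nat.add_le_add_right u1 _)
    rw [← sum_add_distrib]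
    refine sum_le_sum fun D hD => le_trans ((card_le_card fun P hP => ?_).trans (card_union_le _ _))
      (Nat.add_le_add_left card_biUnion_le _)
    by_cases h : ∀ E ∈ (mon (ZMod 2) j).erase D, P ∉ SM m (X * (X + 1) * E)
    · exact mem_union_left _ (mem_filter.2 ⟨hP, h⟩)
    · push Not at h
      obtain ⟨E, e1, e2⟩ := h
      obtain ⟨p1, p2, -⟩ := mem_filter.1 hP
      exact mem_union_right _ (mem_biUnion.2 ⟨E, e1, mem_filter.2
        ⟨(mem_filter.1 p1).1, (mem_filter.1 p1).2, p2, (mem_filter.1 e2).2.1⟩⟩)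
  have s2 := card_nsmul_le_sum (mon (ZMod 2) j) _ _ fun D hD =>
    H _ (dD D hD).1 (by rw [(dD D hD).2]; omega) (dvd_mul_right _ _)
  have s3 := sum_le_card_nsmul (mon (ZMod 2) j) (fun D => (m : ℝ) ^ 2 *
      ∑ E ∈ (mon (ZMod 2) j).erase D, (#{x ∈ mon (ZMod 2) m | Irreducible x ∧
        Irreducible (x + X * (X + 1) * D) ∧ Irreducible (x + X * (X + 1) * E)} : ℝ))
      (Real.exp (-10) / 8 * 2 ^ m) fun D hD => by
    have a := sum_le_card_nsmul ((mon (ZMod 2) j).erase D) _ _ fun E hE =>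
      H3 _ _ (dD D hD).1 (dD E (mem_of_mem_erase hE)).1 (fun e => ne_of_mem_erase hE
        (mul_left_cancel₀ h0 (sub_eq_zero.1 e))) (dD D hD).2.le (dD E (mem_of_mem_erase hE)).2.le
    have b : (#((mon (ZMod 2) j).erase D) : ℝ) ≤ 2 ^ j := by
      rw [← qq2, ← card_mon]
      exact Nat.cast_le.2 card_erase_le
    rw [nsmul_eq_mul, ← mul_sum, qq2] at a
    refine a.trans ((mul_le_mul_of_nonneg_right b (by positivity)).trans ?_)
    rw [← mul_assoc]
    exact mul_le_mul_of_nonneg_right num (by positivity)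
  rw [nsmul_eq_mul, card_mon, qq2, ← mul_sum] at s2 s3
  have s4 := mul_le_mul_of_nonneg_left ((Nat.cast_le (α := ℝ)).2 s1) (sq_nonneg (m : ℝ))
  push_cast at s4
  linarith

theorem geo {g : ℝ} (g0 : 0 < g) (J : ℕ) :
    ∑ j ∈ range J, (if g < 2 ^ j then 1 / (2 : ℝ) ^ j else 0) ≤ max 0 (2 / g - 2 / 2 ^ J) := by
  induction J with
  | zero => simp
  | succ J ih =>
    have e : 2 / (2 : ℝ) ^ (J + 1) = 1 / 2 ^ J := by rw [pow_succ]; field_simp
    have e2 : 2 / (2 : ℝ) ^ J = 2 * (1 / 2 ^ J) := by ring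
    rw [sum_range_succ, e]
    split_ifs with h
    · have a := div_le_div_of_nonneg_left (zero_le_two (α := ℝ)) g0 h.le
      rw [max_eq_right (by linarith)] at ih
      exact le_max_of_le_right (by linarith)
    · have a := div_le_div_of_nonneg_left (zero_le_two (α := ℝ)) (by positivity) (not_lt.1 h)
      rw [max_eq_left (by linarith)] at ih
      exact le_max_of_le_left (by linarith)

/-- The sum of the reciprocal gaps after the primes of degree `m`. -/
def RS (m : ℕ) : ℝ := ∑ P ∈ prs (ZMod 2) m, 1 / ((nx (enc P) : ℝ) - enc P)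

theorem gap_pos {m : ℕ} {P : (ZMod 2)[X]} (h : P ∈ prs (ZMod 2) m) :
    (1 : ℝ) ≤ (nx (enc P) : ℝ) - enc P := by
  have : (enc P : ℝ) + 1 ≤ nx (enc P) := by exact_mod_cast lt_nx (pb_iff.2 (mem_filter.1 h).2)
  linarith

theorem ng_card (m j : ℕ) : (#(NG m j) : ℝ) =
    ∑ P ∈ prs (ZMod 2) m, if (nx (enc P) : ℝ) - enc P < 2 ^ j then 1 else 0 := by
  rw [sum_boole, NG]
  congr 2
  refine filter_congr fun P _ => ?_
  rw [sub_lt_iff_lt_add']
  exact_mod_cast Iff.rfl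

theorem rs_low : ∃ c : ℝ, 0 < c ∧ ∀ᶠ m : ℕ in atTop,
    c * Real.log m * 2 ^ m ≤ (m : ℝ) ^ 2 * RS m := by
  have e0 := Real.exp_pos (-10)
  refine ⟨Real.exp (-10) / 128 / 120, by positivity, ?_⟩
  filter_upwards [ng_low, eventually_ge_atTop (2 ^ (4 * 40))] with m H hm
  have l1 := (Nat.le_div_iff_mul_le (by norm_num)).2 (Nat.le_log_of_pow_le one_lt_two hm)
  have l2 : m < 2 ^ (40 * (Nat.log 2 m / 40 + 1)) := (Nat.lt_pow_succ_log_self one_lt_two m).trans_le
    (Nat.pow_le_pow_right two_pos (by omega))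
  have m0 : (0 : ℝ) < m := by exact_mod_cast (Nat.two_pow_pos _).trans_le hm
  clear hm
  obtain ⟨K, hK⟩ : ∃ K, Nat.log 2 m / 40 = K + 2 := ⟨Nat.log 2 m / 40 - 2, by omega⟩
  rw [hK] at H l1 l2
  have l3 : Real.log m ≤ 120 * K := by
    have a := Real.log_le_log m0 ((Nat.cast_le (α := ℝ)).2 l2.le)
    have b := Real.log_two_lt_d9
    have c : (2 : ℝ) ≤ K := by exact_mod_cast (by omega : 2 ≤ K)
    rw [Nat.cast_pow, Real.log_pow, Nat.cast_mul, Nat.cast_add, Nat.cast_add] at a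
    clear l2
    norm_num only at a
    have d := mul_le_mul_of_nonneg_left (b.le.trans (by norm_num : _ ≤ (1 : ℝ)))
      (by positivity : (0 : ℝ) ≤ 40 * (K + 2 + 1))
    linarith
  clear l2
  have s1 : ∑ j ∈ range (3 + K), 1 / (2 : ℝ) ^ j * #(NG m j) ≤ 2 * RS m := by
    simp only [ng_card, mul_sum, RS]
    rw [sum_comm]
    refine sum_le_sum fun P hP => ?_
    have g := gap_pos hP
    generalize (nx (enc P) : ℝ) - enc P = y at g
    have y0 : 0 < y := by linarith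
    refine le_trans (le_of_eq (sum_congr rfl fun j _ => by split_ifs <;> simp))
      ((geo y0 (3 + K)).trans (max_le (by positivity) ?_))
    rw [mul_one_div]
    exact sub_le_self _ (by positivity)
  have s2 := card_nsmul_le_sum (range K) (fun j => (m : ℝ) ^ 2 * (1 / (2 : ℝ) ^ (3 + j) *
      #(NG m (3 + j)))) (Real.exp (-10) / 64 * 2 ^ m) fun j hj => by
    have a := mul_le_mul_of_nonneg_left (H j (by have := mem_range.1 hj; omega))
      (by positivity : (0 : ℝ) ≤ 1 / 2 ^ (3 + j))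
    rw [add_comm j 3] at a
    rw [mul_left_comm]
    refine le_trans (le_of_eq ?_) a
    rw [pow_add]
    field_simp
    norm_num
  rw [sum_range_add] at s1
  have s3 : 0 ≤ ∑ j ∈ range 3, 1 / (2 : ℝ) ^ j * #(NG m j) := by positivity
  rw [nsmul_eq_mul, card_range, ← mul_sum] at s2
  have s4 := mul_le_mul_of_nonneg_left ((le_add_of_nonneg_left s3).trans s1) (sq_nonneg (m : ℝ))
  have s5 := mul_le_mul_of_nonneg_left l3
    (by positivity : (0 : ℝ) ≤ Real.exp (-10) / 128 / 120 * 2 ^ m)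
  linarith

end Pool.Agent.HTW
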