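import Pool.Agent.MP_00acf4_nt.Tw.EN1

/-! The mean value of the singular series over short progressions. -/

set_option autoImplicit false

open Polynomial Finset Filter Topology
open scoped Classical BigOperators

noncomputable section
namespace Pool.Agent.HTW
open Pool.Agent.MP_a4a062_nt.C2 Pool.Agent.HGB Pool.Agent.HGS Pool.Agent.MP_b5e119_nt.GB

theorem sq_sum (M : ℕ) : ∑ p ∈ sp (ZMod 2) M, ri p ^ 2 ≤ 2 := by
  have q2 := two_le_qq (k := ZMod 2)
  refine (sum_le_sum_of_subset_of_nonneg (filter_subset _ (mle (ZMod 2) M))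
    fun p _ _ => sq_nonneg _).trans ?_
  rw [sum_mle]
  refine le_trans (sum_le_sum fun i _ => ?_) (sum_geometric_two_le (M + 1))
  rw [sum_congr rfl (g := fun _ => (1 / qq (ZMod 2) ^ i) ^ 2) fun a ha => by
    rw [ri, (mem_mon.1 ha).2], sum_const, nsmul_eq_mul, card_mon, sq, ← mul_assoc,
    mul_one_div_cancel (by positivity), one_mul, one_div_pow]
  gcongr

theorem sg_nonneg {F : (ZMod 2)[X]} (hF : F ≠ 0) : 0 ≤ SG F :=
  ge_of_tendsto' (ss_lim hF) fun _ => prod_nonneg fun _ hp =>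
    div_nonneg (nu_ri (mem_sp.1 hp).2.1).1 (sq_nonneg _)

theorem sg_le2 {F : (ZMod 2)[X]} (hF : F ≠ 0) {z : ℕ} (h : F.natDegree ≤ z) :
    SG F ≤ (∏ p ∈ sp (ZMod 2) z, (1 + if p ∣ F then ri p else 0)) * Real.exp 4 := by
  refine le_of_tendsto (ss_lim hF) (eventually_atTop.2 ⟨z, fun M hM => ?_⟩)
  have e : ∏ p ∈ sp (ZMod 2) z, (1 + if p ∣ F then ri p else 0) =
      ∏ p ∈ sp (ZMod 2) M, (1 + if p ∣ F then ri p else 0) := by
    refine prod_subset (fun p hp => ?_) fun p hp hn => ?_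
    · exact mem_sp.2 ⟨(mem_sp.1 hp).1, (mem_sp.1 hp).2.1, (mem_sp.1 hp).2.2.trans hM⟩
    · rw [if_neg fun b => hn (mem_sp.2 ⟨(mem_sp.1 hp).1, (mem_sp.1 hp).2.1,
        (natDegree_le_of_dvd b hF).trans h⟩), add_zero]
  have n : ∀ p : (ZMod 2)[X], 0 ≤ 1 + if p ∣ F then ri p else 0 := fun p => by
    have := ri_pos p
    split_ifs <;> linarith
  have e2 : ∏ p ∈ sp (ZMod 2) M, Real.exp (2 * ri p ^ 2) ≤ Real.exp 4 := by
    rw [← Real.exp_sum, Real.exp_le_exp, ← mul_sum]
    linarith [sq_sum M]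
  rw [e, SS]
  refine le_trans ?_ (mul_le_mul_of_nonneg_left e2 (prod_nonneg fun p _ => n p))
  rw [← prod_mul_distrib]
  refine prod_le_prod (fun p hp => div_nonneg (nu_ri (mem_sp.1 hp).2.1).1 (sq_nonneg _))
    fun p hp => le_trans ?_ (mul_le_mul_of_nonneg_left (Real.add_one_le_exp _) (n p))
  have r0 := ri_pos p
  have r1 := ri_le (mem_sp.1 hp).2.1
  have r3 : 0 < 1 - ri p := by linarith
  have r4 : 0 ≤ ri p ^ 2 * (1 - 2 * ri p ^ 2) := mul_nonneg (sq_nonneg _) (by nlinarith)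
  rw [div_le_iff₀ (by positivity), nu]
  split_ifs
  · nlinarith [mul_nonneg r3.le r4]
  · nlinarith [mul_nonneg (sq_nonneg (ri p)) (sq_nonneg (1 - ri p))]

theorem om_le {F : (ZMod 2)[X]} (hF : F ≠ 0) {z j : ℕ} (h : F.natDegree ≤ 2 * j + 2) :
    #{p ∈ sp (ZMod 2) z | p ∣ F} ≤ j + 2 := by
  have hS : {p ∈ sp (ZMod 2) z | p ∣ F} ⊆ sp (ZMod 2) z := filter_subset _ _
  have a := natDegree_le_of_dvd ((br_prod_dvd hS F).2 fun p hp => (mem_filter.1 hp).2) hF
  rw [natDegree_prod_of_monic _ _ fun p hp => (mem_sp.1 (hS hp)).1] at a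
  generalize {p ∈ sp (ZMod 2) z | p ∣ F} = W at hS a
  have b := card_nsmul_le_sum W (fun p => p.natDegree + if p ∈ mon (ZMod 2) 1 then 1 else 0) 2
    fun p hp => by
      obtain ⟨p1, p2, -⟩ := mem_sp.1 (hS hp)
      have := p2.natDegree_pos
      by_cases c : p.natDegree = 1
      · rw [if_pos (mem_mon.2 ⟨p1, c⟩), c]
      · omega
  have c : #(mon (ZMod 2) 1) = 2 := by
    have := card_mon (k := ZMod 2) 1
    rw [qq2, pow_one] at this
    exact_mod_cast this
  rw [sum_add_distrib, sum_boole, smul_eq_mul, Nat.cast_id] at b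
  have d : #{p ∈ W | p ∈ mon (ZMod 2) 1} ≤ 2 :=
    (card_le_card fun p hp => (mem_filter.1 hp).2).trans c.le
  omega

theorem sg_le3 {F : (ZMod 2)[X]} (hF : F ≠ 0) {j : ℕ} (h : F.natDegree ≤ 2 * j + 2) :
    SG F ≤ 2 * Real.exp 4 * (∑ S ∈ ((sp (ZMod 2) (2 * j + 2)).erase X).powerset,
      (if (∏ p ∈ S, p).natDegree ≤ j then (∏ p ∈ S, ri p) *
        (if ∏ p ∈ S, p ∣ F then 1 else 0) else 0) + 4) := by
  have x : X ∈ sp (ZMod 2) (2 * j + 2) :=
    mem_sp.2 ⟨monic_X, irreducible_X, by rw [natDegree_X]; omega⟩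
  have a := sg_le2 hF h
  have w := om_le hF (z := 2 * j + 2) h
  generalize 2 * j + 2 = z at *
  have n : ∀ p : (ZMod 2)[X], 0 ≤ 1 + if p ∣ F then ri p else 0 := fun p => by
    have := ri_pos p
    split_ifs <;> linarith
  have b : (1 + if X ∣ F then ri (X : (ZMod 2)[X]) else 0) ≤ 2 := by
    have := ri_le (irreducible_X (R := ZMod 2))
    split_ifs <;> linarith
  rw [← mul_prod_erase _ _ x] at a
  refine (a.trans (mul_le_mul_of_nonneg_right (mul_le_mul_of_nonneg_right b
    (prod_nonneg fun p _ => n p)) (Real.exp_pos _).le)).trans ?_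
  rw [mul_right_comm]
  refine mul_le_mul_of_nonneg_left ?_ (by positivity)
  have c : ∑ S ∈ ((sp (ZMod 2) z).erase X).powerset,
      (if S ∈ {p ∈ sp (ZMod 2) z | p ∣ F}.powerset then 1 / (2 : ℝ) ^ j else 0) ≤ 4 := by
    rw [sum_ite_mem, sum_const, nsmul_eq_mul, mul_one_div, div_le_iff₀ (by positivity)]
    have := (card_le_card (inter_subset_right (s₁ := ((sp (ZMod 2) z).erase X).powerset))).trans
      ((card_powerset _).le.trans (Nat.pow_le_pow_right two_pos w))
    rw [pow_add, mul_comm] at this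
    exact_mod_cast this
  refine le_trans ?_ (add_le_add_right c _)
  rw [prod_one_add, ← sum_add_distrib]
  refine sum_le_sum fun S hS => ?_
  have hS' := (mem_powerset.1 hS).trans (erase_subset _ _)
  have r0 : 0 ≤ ∏ p ∈ S, ri p := prod_nonneg fun p _ => (ri_pos p).le
  by_cases d : ∀ p ∈ S, p ∣ F
  · rw [prod_congr rfl fun p hp => if_pos (d p hp), if_pos ((br_prod_dvd hS' F).2 d), mul_one,
      if_pos (mem_powerset.2 fun p hp => mem_filter.2 ⟨hS' hp, d p hp⟩)]
    split_ifs with e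
    · exact le_add_of_nonneg_right (by positivity)
    · rw [zero_add, ri_prod hS', qq2]
      exact one_div_le_one_div_of_le (by positivity) (pow_le_pow_right₀ one_le_two (by omega))
  · push Not at d
    obtain ⟨p, p1, p2⟩ := d
    rw [prod_eq_zero p1 (if_neg p2)]
    split_ifs <;> positivity

/-- The constant of the mean value. -/
def KS : ℝ := 2 * Real.exp 4 * (Real.exp 2 + 4)

theorem ks_pos : 0 < KS := by unfold KS; positivity

theorem avgS (j e : ℕ) (A : (ZMod 2)[X])
    (h : ∀ s ∈ box (ZMod 2) j, (A + X ^ e * s).natDegree ≤ 2 * j + 2) :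
    ∑ s ∈ box (ZMod 2) j with A + X ^ e * s ≠ 0, SG (A + X ^ e * s) ≤ KS * 2 ^ j := by
  refine (sum_le_sum fun s hs => sg_le3 (mem_filter.1 hs).2 (h s (mem_filter.1 hs).1)).trans
    ((sum_le_sum_of_subset_of_nonneg (filter_subset _ _) fun s _ _ => ?_).trans ?_)
  · refine mul_nonneg (by positivity) (add_nonneg (sum_nonneg fun S _ => ?_) (by norm_num))
    have r0 : 0 ≤ ∏ p ∈ S, ri p := prod_nonneg fun p _ => (ri_pos p).le
    split_ifs <;> positivity
  rw [← mul_sum, KS, mul_assoc _ _ (2 ^ j), sum_add_distrib, sum_const, nsmul_eq_mul, card_box, qq2,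
    add_mul, mul_comm 4, sum_comm]
  refine mul_le_mul_of_nonneg_left (add_le_add_left ?_ _) (by positivity)
  generalize 2 * j + 2 = z
  have a : ∑ S ∈ ((sp (ZMod 2) z).erase X).powerset, ∏ p ∈ S, ri p ^ 2 ≤ Real.exp 2 := by
    rw [← prod_one_add]
    refine (prod_le_prod (g := fun p => Real.exp (ri p ^ 2)) (fun p _ => by positivity)
      fun p _ => (add_comm _ _).trans_le (Real.add_one_le_exp _)).trans ?_
    rw [← Real.exp_sum, Real.exp_le_exp]
    exact (sum_le_sum_of_subset_of_nonneg (erase_subset _ _) fun p _ _ => sq_nonneg _).trans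
      (sq_sum z)
  refine le_trans ?_ (mul_le_mul_of_nonneg_right a (by positivity))
  rw [sum_mul]
  refine sum_le_sum fun S hS => ?_
  have hS' := (mem_powerset.1 hS).trans (erase_subset _ _)
  by_cases d : (∏ p ∈ S, p).natDegree ≤ j
  · have c : IsCoprime (X ^ e) (∏ p ∈ S, p) := IsCoprime.pow_left (IsCoprime.prod_right fun p hp =>
      br_cop (z := z) (mem_sp.2 ⟨monic_X, irreducible_X, by
        rw [natDegree_X]
        exact (mem_sp.1 (hS' hp)).2.1.natDegree_pos.trans_le (mem_sp.1 (hS' hp)).2.2⟩) (hS' hp)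
        (ne_of_mem_erase (mem_powerset.1 hS hp)).symm)
    have b := exp_box_dvd (br_monic hS').ne_zero d c A
    rw [box_exp, ← ri_prod hS', qq2, div_eq_iff (by positivity)] at b
    simp only [if_pos d]
    rw [← mul_sum, b, prod_pow, sq, mul_assoc]
  · simp only [if_neg d, sum_const_zero]
    positivity

theorem win {i l r : ℕ} (B : (ZMod 2)[X]) (D : Finset ℕ) (h1 : i ≤ l) (h2 : l ≤ 2 * i + 3)
    (hB : B.natDegree ≤ l) (hr : r < 2 ^ (l + 1))
    (h : ∀ d ∈ D, d ≠ 0 ∧ (dec (r + d) - B).degree < (i + 1 : ℕ)) :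
    ∑ d ∈ D, SG (reflect (l + 1) (hs r d)) ≤ KS * 2 ^ (i + 1) := by
  have e : ∀ d ∈ D, reflect (l + 1) (hs r d) = reflect (l + 1) (B - dec r) +
      X ^ (l + 1 - i) * reflect i (dec (r + d) - B) := fun d hd => by
    have a := reflect_mul 1 (dec (r + d) - B) (F := l + 1 - i) (G := i) (by simp) (nd_le (h d hd).2)
    rw [one_mul, Nat.sub_add_cancel (by omega), reflect_one] at a
    rw [← a, ← reflect_add, hs]
    congr 1
    ring
  refine le_trans ?_ (avgS (i + 1) (l + 1 - i) (reflect (l + 1) (B - dec r)) fun s hs => ?_)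
  · rw [sum_congr rfl fun d hd => congrArg SG (e d hd), ← sum_image (g := fun d =>
      reflect i (dec (r + d) - B)) (f := fun s => SG (reflect (l + 1) (B - dec r) +
        X ^ (l + 1 - i) * s)) fun a _ b _ c => ?_]
    · refine sum_le_sum_of_subset_of_nonneg (fun s hs => ?_) fun s hs _ =>
        sg_nonneg (mem_filter.1 hs).2
      obtain ⟨d, hd, rfl⟩ := mem_image.1 hs
      refine mem_filter.2 ⟨mem_box.2 (degree_le_natDegree.trans_lt ?_),
        e d hd ▸ mt reflect_eq_zero_iff.1 (hs_ne (h d hd).1)⟩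
      exact_mod_cast Nat.lt_succ_of_le (natDegree_reflect_le.trans (max_le le_rfl (nd_le (h d hd).2)))
    · have c1 := congrArg (reflect i) c
      simp only [reflect_reflect, sub_left_inj] at c1
      have c2 := congrArg enc c1
      rw [enc_dec, enc_dec] at c2
      omega
  · have a1 := natDegree_reflect_le (N := l + 1) (p := B - dec r)
    have a2 := natDegree_sub_le B (dec r)
    have a3 := nd_le (dec_deg hr)
    have a4 := natDegree_mul_le (p := X ^ (l + 1 - i)) (q := s)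
    have a5 := nd_le (mem_box.1 hs)
    rw [natDegree_X_pow] at a4
    exact (natDegree_add_le _ _).trans (by omega)

end Pool.Agent.HTW
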