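import Pool.Agent.MP_00acf4_nt.Tw.EN2

/-! An upper bound for the sum of the reciprocal gaps between the primes of `F_2[X]`. -/

set_option autoImplicit false

open Polynomial Finset Filter Topology
open scoped Classical BigOperators

noncomputable section
namespace Pool.Agent.HTW
open Pool.Agent.MP_a4a062_nt.C2 Pool.Agent.HGB Pool.Agent.HGS Pool.Agent.MP_b5e119_nt.GB

/-- The uniform upper bound for pairs in a class. -/
def UB (m : ℕ) : Prop := ∀ (l : ℕ) (a h : (ZMod 2)[X]),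
  l ^ 21 ≤ m → l < m → a.natDegree ≤ l → h.natDegree ≤ l → h ≠ 0 →
    (m : ℝ) ^ 2 * #(TC m (l + 1) a h) ≤ SG (reflect (l + 1) h) * (2 * 2 ^ m / 2 ^ l)

theorem tc_le2 : ∀ᶠ m : ℕ in atTop, UB m := by
  filter_upwards [tc_asym one_pos, eventually_ge_atTop 2] with m H m2 l a h m1 lm da dh h1
  rcases (TC m (l + 1) a h).eq_empty_or_nonempty with e | e
  · rw [e, card_empty, Nat.cast_zero, mul_zero]
    exact mul_nonneg (sg_nonneg (mt reflect_eq_zero_iff.1 h1))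
      (div_nonneg (mul_nonneg zero_le_two (pow_pos two_pos m).le) (pow_pos two_pos l).le)
  obtain ⟨b1, b2⟩ := tc_adm m2 (by omega) e
  obtain ⟨c1, c2⟩ := H l a h m1 lm da dh b1 h1 b2
  clear H m1
  have c4 := (abs_le.1 c2).2
  have p2 : (2 : ℝ) ^ m = 2 ^ (m - l) * 2 ^ l := by rw [← pow_add, Nat.sub_add_cancel lm.le]
  rw [sub_le_iff_le_add, div_le_iff₀ c1, div_le_iff₀ (by positivity)] at c4
  rw [p2, ← mul_assoc, mul_div_cancel_right₀ _ (by positivity)]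
  linarith

theorem lev {m i l : ℕ} (H : UB m) (m1 : l ^ 21 ≤ m) (lm : l < m) (B : (ZMod 2)[X])
    (R : ℕ → Finset ℕ) (Q : Finset ℕ) (hQ : #Q ≤ 2 ^ (i + 1)) (h1 : i ≤ l) (h2 : l ≤ 2 * i + 3)
    (hB : B.natDegree ≤ l) (h : ∀ d ∈ Ioo 0 (2 ^ (i + 1)), ∀ r ∈ R d, r ∈ Q ∧
      r + d < 2 ^ (l + 1) ∧ (dec (r + d) - B).degree < (i + 1 : ℕ)) :
    (m : ℝ) ^ 2 * ∑ d ∈ Ioo 0 (2 ^ (i + 1)), (#(PW d m (l + 1) (R d)) : ℝ) ≤
      2 ^ (i + 1) * (KS * 2 ^ (i + 1)) * (2 * 2 ^ m / 2 ^ l) := by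
  have a : ∀ d ∈ Ioo 0 (2 ^ (i + 1)), (m : ℝ) ^ 2 * #(PW d m (l + 1) (R d)) ≤
      (∑ r ∈ R d, SG (reflect (l + 1) (hs r d))) * (2 * 2 ^ m / 2 ^ l) := fun d hd => by
    rw [pw_card m fun r hr => (h d hd r hr).2.1, Nat.cast_sum, mul_sum, sum_mul]
    exact sum_le_sum fun r hr => H l _ _ m1 lm (nd_le (dec_deg ((Nat.le_add_right _ _).trans_lt
      (h d hd r hr).2.1))) (hs_deg (h d hd r hr).2.1) (hs_ne (mem_Ioo.1 hd).1.ne')
  clear H m1
  have k0 := ks_pos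
  rw [mul_sum]
  refine (sum_le_sum a).trans ?_
  rw [← sum_mul]
  refine mul_le_mul_of_nonneg_right ?_ (by positivity)
  rw [sum_comm' (t' := Q) (s' := fun r => {d ∈ Ioo 0 (2 ^ (i + 1)) | r ∈ R d}) fun d r => by
    rw [mem_filter]
    exact ⟨fun a => ⟨a, (h d a.1 r a.2).1⟩, fun a => a.1⟩]
  refine (sum_le_card_nsmul _ _ (KS * 2 ^ (i + 1)) fun r _ => ?_).trans ?_
  · rcases {d ∈ Ioo 0 (2 ^ (i + 1)) | r ∈ R d}.eq_empty_or_nonempty with e | ⟨d, e⟩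
    · rw [e, sum_empty]
      positivity
    · exact win B _ h1 h2 hB ((Nat.le_add_right _ _).trans_lt
        (h d (mem_filter.1 e).1 r (mem_filter.1 e).2).2.1) fun d hd =>
        ⟨(mem_Ioo.1 (mem_filter.1 hd).1).1.ne', (h d (mem_filter.1 hd).1 r (mem_filter.1 hd).2).2.2⟩
  · rw [nsmul_eq_mul]
    exact mul_le_mul_of_nonneg_right (by exact_mod_cast hQ) (by positivity)

theorem dec_top {l x : ℕ} (h : x < 2 ^ l) : dec (2 ^ l + x) - X ^ l = dec x := by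
  have e : enc 1 = 1 := by simpa [enc_zero] using enc_odd 0
  have a := enc_split 1 (dec_deg h)
  rw [e, mul_one, mul_one, enc_dec, ← enc_dec (2 ^ l + x)] at a
  rw [← enc_inj a, add_sub_cancel_left]

theorem carry {m i : ℕ} (H : UB m) (M : ℕ) (hM : i + 1 ≤ M) : M ≤ 2 * i + 2 → M ^ 21 ≤ m →
    (m : ℝ) ^ 2 * ∑ d ∈ Ioo 0 (2 ^ (i + 1)), (#(OV d m (i + 1)) : ℝ) ≤
      (m : ℝ) ^ 2 * ∑ d ∈ Ioo 0 (2 ^ (i + 1)), (#(OV d m M) : ℝ) +
        2 ^ (i + 1) * (KS * 2 ^ (i + 1)) * (4 * 2 ^ m / 2 ^ (i + 1) - 4 * 2 ^ m / 2 ^ M) := by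
  induction M, hM using Nat.le_induction with
  | base => simp
  | succ M hM ih =>
    intro h0 h
    have h1 : M ^ 21 ≤ m := (Nat.pow_le_pow_left (Nat.le_succ M) 21).trans h
    have h2 : M < m := (Nat.le_self_pow (by norm_num) (M + 1)).trans h
    have i1 := ih (by omega) h1
    have pw : 2 ^ (i + 1) ≤ 2 ^ M := Nat.pow_le_pow_right two_pos hM
    have a := lev H h1 h2 (X ^ M) (fun d => {r ∈ Ico (2 ^ M - d) (2 ^ M) | r + d < 2 ^ (M + 1)})
      (Ico (2 ^ M - 2 ^ (i + 1)) (2 ^ M)) (i := i)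
      (by rw [Nat.card_Ico, Nat.sub_sub_self pw]) (by omega)
      (by omega) (natDegree_X_pow_le M) fun d hd r hr => by
        obtain ⟨r1, r2⟩ := mem_filter.1 hr
        have r3 := mem_Ico.1 r1
        have d1 := mem_Ioo.1 hd
        refine ⟨mem_Ico.2 (by omega), r2, ?_⟩
        rw [show r + d = 2 ^ M + (r + d - 2 ^ M) by omega, dec_top (by omega)]
        exact dec_deg (by omega)
    clear ih h h1 H
    have b : ∑ d ∈ Ioo 0 (2 ^ (i + 1)), (#(OV d m M) : ℝ) ≤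
        ∑ d ∈ Ioo 0 (2 ^ (i + 1)), (#(OV d m (M + 1)) : ℝ) + ∑ d ∈ Ioo 0 (2 ^ (i + 1)),
          (#(PW d m (M + 1) {r ∈ Ico (2 ^ M - d) (2 ^ M) | r + d < 2 ^ (M + 1)}) : ℝ) := by
      rw [← sum_add_distrib]
      exact sum_le_sum fun d _ => by
        exact_mod_cast (card_le_card (ov_step d m M)).trans (card_union_le _ _)
    have c := mul_le_mul_of_nonneg_left b (sq_nonneg (m : ℝ))
    have g : 4 * (2 : ℝ) ^ m / 2 ^ (M + 1) = 4 * 2 ^ m / 2 ^ M - 2 * 2 ^ m / 2 ^ M := by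
      rw [pow_succ]
      field_simp
      norm_num
    rw [g]
    linarith

theorem ov_tel2 : ∀ᶠ m : ℕ in atTop, ∀ d L, 0 < d → ∀ M, L ≤ M → M ^ 21 ≤ m →
    (m : ℝ) ^ 2 * #(OV d m L) ≤ (m : ℝ) ^ 2 * #(OV d m M) +
      d * 1536 * 2 ^ m * (2 * (L + 2) / 2 ^ L - 2 * (M + 2) / 2 ^ M) := by
  filter_upwards [tc_le] with m H d L d0 M hM
  induction M, hM using Nat.le_induction with
  | base => simp
  | succ M hM ih =>
    intro h
    have h1 : M ^ 21 ≤ m := (Nat.pow_le_pow_left (Nat.le_succ M) 21).trans h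
    have h2 : M < m := (Nat.le_self_pow (by norm_num) (M + 1)).trans h
    have a := (card_le_card (ov_step d m M)).trans (card_union_le _ _)
    rw [pw_card m fun r hr => (mem_filter.1 hr).2] at a
    have b := sum_le_card_nsmul {r ∈ Ico (2 ^ M - d) (2 ^ M) | r + d < 2 ^ (M + 1)} _ _ fun r hr =>
      H M (dec r) (hs r d) h1 h2 (nd_le (dec_deg ((Nat.le_add_right _ _).trans_lt
        (mem_filter.1 hr).2))) (hs_deg (mem_filter.1 hr).2) (hs_ne d0.ne')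
    have c : (#{r ∈ Ico (2 ^ M - d) (2 ^ M) | r + d < 2 ^ (M + 1)} : ℝ) ≤ d :=
      Nat.cast_le.2 ((card_filter_le _ _).trans (by rw [Nat.card_Ico]; omega))
    rw [nsmul_eq_mul, ← mul_sum] at b
    have e := b.trans (mul_le_mul_of_nonneg_right c (by positivity))
    have f := mul_le_mul_of_nonneg_left ((Nat.cast_le (α := ℝ)).2 a) (sq_nonneg (m : ℝ))
    have g : 2 * (((M + 1 : ℕ) : ℝ) + 2) / 2 ^ (M + 1) =
        2 * (M + 2) / 2 ^ M - (M + 1) / 2 ^ M := by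
      push_cast
      field_simp
      ring
    have i := ih h1
    rw [Nat.cast_add, Nat.cast_sum] at f
    rw [g]
    linarith

theorem ng_up : ∀ᶠ m : ℕ in atTop, ∀ i, i ≤ Nat.log 2 m →
    (m : ℝ) ^ 2 * #(NG m (i + 1)) ≤ (8 * KS + 6145) * 2 ^ (i + 1) * 2 ^ m := by
  obtain ⟨T, hT⟩ := eventually_atTop.1 (((tendsto_pow_const_div_const_pow_of_one_lt 63
    (one_lt_two (α := ℝ))).eventually_le_const (by positivity : (0 : ℝ) < 1 / 2 ^ 64)).and
      (eventually_ge_atTop 1))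
  filter_upwards [tc_le2, ov_tel2, eventually_ge_atTop (T ^ 21), eventually_ge_atTop 2]
    with m H H2 hm m2 i hi
  obtain ⟨t, t1, t2, tT⟩ : ∃ t, t ^ 21 ≤ m ∧ m ≤ (t + 1) ^ 21 ∧ T ≤ t :=
    ⟨Nat.nthRoot 21 m, Nat.pow_nthRoot_le (Or.inl (by norm_num)),
      (Nat.lt_pow_nthRoot_add_one (by norm_num) m).le, (Nat.le_nthRoot_iff (by norm_num)).2 hm⟩
  obtain ⟨a1, a2⟩ := hT t tT
  have m3 : 2 * m ^ 3 ≤ 2 ^ t := by
    have b1 : (t + 1) ^ 21 ≤ (2 * t) ^ 21 := Nat.pow_le_pow_left (by omega) 21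
    have b2 := Nat.mul_le_mul_left 2 (Nat.pow_le_pow_left (t2.trans b1) 3)
    rw [← pow_mul, mul_pow, ← mul_assoc] at b2
    rw [div_le_div_iff₀ (pow_pos two_pos t) (pow_pos two_pos 64), one_mul, mul_comm] at a1
    exact b2.trans (by exact_mod_cast a1)
  have i1 : 2 ^ (i + 1) ≤ 2 * m := by
    have := (Nat.pow_le_pow_right two_pos hi).trans (Nat.pow_log_le_self 2 (by omega))
    rw [pow_succ]
    omega
  have i2 : 2 * i + 2 ≤ t := by
    refine (Nat.pow_le_pow_iff_right one_lt_two).1 (le_trans ?_ m3)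
    calc 2 ^ (2 * i + 2) = 2 ^ (i + 1) * 2 ^ (i + 1) := by ring
      _ ≤ 2 * m * (2 * m) := Nat.mul_le_mul i1 i1
      _ = 2 * (2 * m ^ 2) := by ring
      _ ≤ 2 * (m * m ^ 2) := Nat.mul_le_mul_left 2 (Nat.mul_le_mul_right _ m2)
      _ = _ := by ring
  have tm : t ≤ m := (Nat.le_self_pow (by norm_num) t).trans t1
  have c1 := carry H (2 * i + 2) (i := i) (by omega) le_rfl
    ((Nat.pow_le_pow_left i2 21).trans t1)
  have c2 := lev H ((Nat.pow_le_pow_left (by omega : i ≤ t) 21).trans t1) (by omega) 0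
    (fun d => {r ∈ range (2 ^ (i + 1)) | r + d < 2 ^ (i + 1)}) (range (2 ^ (i + 1))) (i := i)
    (card_range _).le le_rfl (by omega) (by simp) fun d _ r hr =>
      ⟨(mem_filter.1 hr).1, (mem_filter.1 hr).2, by
        rw [sub_zero]; exact dec_deg (mem_filter.1 hr).2⟩
  have c3 := fun d (h : 0 < d) => H2 d (2 * i + 2) h t i2 t1
  have c4 := fun d => ov_triv d tm
  have m4 : 2 * (m : ℝ) ^ 3 ≤ 2 ^ t := by exact_mod_cast m3
  clear H H2 hm hT t1 t2 tT a1 a2 m3 i2 tm hi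
  have c5 := sum_le_card_nsmul (Ioo 0 (2 ^ (i + 1))) (fun d => (m : ℝ) ^ 2 * #(OV d m (2 * i + 2)))
      (6145 * 2 ^ m) fun d hd => by
    obtain ⟨d1, d2⟩ := mem_Ioo.1 hd
    have e1 : (d : ℝ) ≤ 2 ^ (i + 1) := by exact_mod_cast d2.le
    have e2 : (d : ℝ) ≤ 2 * m := by exact_mod_cast d2.le.trans i1
    have e3 : (i : ℝ) + 1 + 1 ≤ 2 ^ (i + 1) := by exact_mod_cast Nat.lt_two_pow_self (n := i + 1)
    have e4 : (m : ℝ) ^ 2 * d / 2 ^ t ≤ 1 := by
      rw [div_le_one (by positivity)]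
      linarith [mul_le_mul_of_nonneg_left e2 (sq_nonneg (m : ℝ))]
    have e5 : d * (2 * (((2 * i + 2 : ℕ) : ℝ) + 2) / 2 ^ (2 * i + 2)) ≤ 4 := by
      have := mul_le_mul e1 e3 (by positivity) (by positivity)
      rw [← mul_div_assoc, div_le_iff₀ (by positivity),
        show (2 : ℝ) ^ (2 * i + 2) = 2 ^ (i + 1) * 2 ^ (i + 1) by ring]
      push_cast
      linarith
    have e6 := mul_le_mul_of_nonneg_left (c4 d) (sq_nonneg (m : ℝ))
    have e7 := mul_le_mul_of_nonneg_right e4 (by positivity : (0 : ℝ) ≤ 2 ^ m)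
    have e8 := mul_le_mul_of_nonneg_right e5 (by positivity : (0 : ℝ) ≤ 1536 * 2 ^ m)
    have e9 : 0 ≤ (d : ℝ) * 1536 * 2 ^ m * (2 * (t + 2) / 2 ^ t) := by positivity
    have e10 : (m : ℝ) ^ 2 * (d * (2 ^ m / 2 ^ t)) = (m : ℝ) ^ 2 * d / 2 ^ t * 2 ^ m := by ring
    have := c3 d d1
    linarith
  have c6 : (#(Ioo 0 (2 ^ (i + 1))) : ℝ) ≤ 2 ^ (i + 1) := by
    exact_mod_cast (Nat.card_Ioo 0 (2 ^ (i + 1))).le.trans (Nat.sub_le _ _)
  rw [nsmul_eq_mul, ← mul_sum] at c5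
  have c7 := c5.trans (mul_le_mul_of_nonneg_right c6 (by positivity))
  have s : #(NG m (i + 1)) ≤ ∑ d ∈ Ioo 0 (2 ^ (i + 1)),
      (#(PW d m (i + 1) {r ∈ range (2 ^ (i + 1)) | r + d < 2 ^ (i + 1)}) + #(OV d m (i + 1))) := by
    refine le_trans ((card_le_card fun P hP => ?_).trans card_biUnion_le)
      (sum_le_sum fun d _ => card_union_le _ _)
    obtain ⟨p1, p2⟩ := mem_filter.1 hP
    have p3 := lt_nx (pb_iff.2 (mem_filter.1 p1).2)
    have p4 : PB (nx (enc P)) := Nat.nth_mem_of_infinite pb_inf _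
    obtain ⟨d, e⟩ := Nat.exists_eq_add_of_le p3.le
    rw [e] at p2 p3 p4
    refine mem_biUnion.2 ⟨d, mem_Ioo.2 (by omega), ?_⟩
    by_cases h : 2 ^ (i + 1) ≤ enc P % 2 ^ (i + 1) + d
    · exact mem_union_right _ (mem_filter.2 ⟨p1, p4, h⟩)
    · exact mem_union_left _ (mem_filter.2 ⟨p1, p4, mem_filter.2
        ⟨mem_range.2 (by omega), not_le.1 h⟩⟩)
  have s2 := mul_le_mul_of_nonneg_left ((Nat.cast_le (α := ℝ)).2 s) (sq_nonneg (m : ℝ))
  rw [sum_add_distrib, Nat.cast_add, Nat.cast_sum, Nat.cast_sum] at s2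
  have k0 := ks_pos
  have f1 : 0 ≤ 2 ^ (i + 1) * (KS * 2 ^ (i + 1)) * (4 * 2 ^ m / 2 ^ (2 * i + 2)) := by positivity
  have f2 : 2 ^ (i + 1) * (KS * 2 ^ (i + 1)) * (4 * 2 ^ m / 2 ^ (i + 1)) =
      4 * KS * 2 ^ (i + 1) * 2 ^ m := by field_simp
  have f3 : 2 ^ (i + 1) * (KS * 2 ^ (i + 1)) * (2 * 2 ^ m / 2 ^ i) =
      4 * KS * 2 ^ (i + 1) * 2 ^ m := by field_simp; ring
  linarith

theorem geo2 {g : ℝ} (g1 : 1 ≤ g) (J : ℕ) :
    1 / g ≤ 1 / 2 ^ J + ∑ i ∈ range J, (if g < 2 ^ (i + 1) then 1 / (2 : ℝ) ^ i else 0) := by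
  induction J with
  | zero => simpa using inv_le_one_of_one_le₀ g1
  | succ J ih =>
    have s : 0 ≤ ∑ i ∈ range J, (if g < 2 ^ (i + 1) then 1 / (2 : ℝ) ^ i else 0) :=
      sum_nonneg fun i _ => by split_ifs <;> positivity
    have p : 0 < 1 / (2 : ℝ) ^ (J + 1) := by positivity
    rw [sum_range_succ]
    split_ifs with h
    · linarith
    · linarith [one_div_le_one_div_of_le (by positivity) (not_lt.1 h)]

theorem rs_up : ∃ C : ℝ, ∀ᶠ m : ℕ in atTop,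
    (m : ℝ) ^ 2 * RS m ≤ C * Real.log m * 2 ^ m := by
  have k0 := ks_pos
  refine ⟨1 + 6 * (8 * KS + 6145), ?_⟩
  filter_upwards [ng_up, eventually_ge_atTop 3] with m H m3
  have m0 : (3 : ℝ) ≤ m := by exact_mod_cast m3
  have l0 : 1 ≤ Real.log m := by
    rw [Real.le_log_iff_exp_le (by linarith)]
    linarith [Real.exp_one_lt_d9]
  have l1 : (m : ℝ) ≤ 2 ^ (Nat.log 2 m + 1) := by
    exact_mod_cast (Nat.lt_pow_succ_log_self one_lt_two m).le
  have l2 : ((Nat.log 2 m + 1 : ℕ) : ℝ) ≤ 3 * Real.log m := by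
    have a : (2 : ℝ) ^ Nat.log 2 m ≤ m := by exact_mod_cast Nat.pow_log_le_self 2 (by omega)
    have b := Real.log_le_log (by positivity) a
    have c := mul_le_mul_of_nonneg_left Real.log_two_gt_d9.le (Nat.cast_nonneg (Nat.log 2 m))
    have d : (0 : ℝ) ≤ Nat.log 2 m := Nat.cast_nonneg _
    rw [Real.log_pow] at b
    push_cast
    linarith
  have H' : ∀ i ∈ range (Nat.log 2 m + 1), _ := fun i hi => H i (Nat.lt_succ_iff.1 (mem_range.1 hi))
  generalize Nat.log 2 m + 1 = J at l1 l2 H'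
  have s1 : RS m ≤ #(prs (ZMod 2) m) / 2 ^ J + ∑ i ∈ range J, 1 / (2 : ℝ) ^ i * #(NG m (i + 1)) := by
    simp only [ng_card, mul_sum, RS]
    rw [sum_comm, div_eq_mul_one_div, ← nsmul_eq_mul, ← sum_const, ← sum_add_distrib]
    refine sum_le_sum fun P hP => (geo2 (gap_pos hP) J).trans (le_of_eq ?_)
    congr 1
    exact sum_congr rfl fun i _ => by split_ifs <;> simp
  have s2 := sum_le_card_nsmul (range J) (fun i => (m : ℝ) ^ 2 * (1 / (2 : ℝ) ^ i *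
      #(NG m (i + 1)))) (2 * (8 * KS + 6145) * 2 ^ m) fun i hi => by
    have a := mul_le_mul_of_nonneg_left (H' i hi) (by positivity : (0 : ℝ) ≤ 1 / 2 ^ i)
    rw [mul_left_comm]
    refine a.trans (le_of_eq ?_)
    field_simp
    ring
  rw [nsmul_eq_mul, card_range, ← mul_sum] at s2
  have s3 : (m : ℝ) ^ 2 * (#(prs (ZMod 2) m) / 2 ^ J) ≤ 2 ^ m := by
    have a := fr_prs_le (k := ZMod 2) m
    rw [qq2] at a
    rw [← mul_div_assoc, div_le_iff₀ (by positivity), sq, mul_assoc, mul_comm]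
    exact mul_le_mul a l1 (by positivity) (by positivity)
  have s4 := mul_le_mul_of_nonneg_left s1 (sq_nonneg (m : ℝ))
  have s5 := mul_le_mul_of_nonneg_right l2
    (by positivity : (0 : ℝ) ≤ 2 * (8 * KS + 6145) * 2 ^ m)
  have s6 := mul_le_mul_of_nonneg_right l0 (by positivity : (0 : ℝ) ≤ 2 ^ m)
  linarith

end Pool.Agent.HTW
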