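import Pool.Agent.MP_00acf4_nt.Tw.EN3

/-! The series of weighted reciprocal gaps between the primes of `F_2[X]` in binary order. -/

set_option autoImplicit false

open Polynomial Finset Filter Topology
open scoped Classical BigOperators

noncomputable section
namespace Pool.Agent.HTW
open Pool.Agent.MP_a4a062_nt.C2 Pool.Agent.HGB Pool.Agent.HGS Pool.Agent.MP_b5e119_nt.GB

theorem bertrand {s : ℝ} (s0 : 0 ≤ s) :
    (Summable fun m : ℕ => 1 / ((m : ℝ) * Real.log m ^ s)) ↔ 1 < s := by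
  rw [← summable_condensed_iff_of_eventually_nonneg, ← Real.summable_one_div_nat_rpow,
    ← summable_mul_left_iff (a := Real.log 2 ^ s)
      (Real.rpow_pos_of_pos (Real.log_pos one_lt_two) s).ne']
  · refine summable_congr fun k => ?_
    have := (Real.rpow_pos_of_pos (Real.log_pos one_lt_two) s).ne'
    rw [Nat.cast_pow, Nat.cast_ofNat, Real.log_pow,
      Real.mul_rpow (Nat.cast_nonneg k) (Real.log_pos one_lt_two).le]
    field_simp
  · exact Eventually.of_forall fun m => by
      have := Real.log_natCast_nonneg m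
      positivity
  · filter_upwards [eventually_ge_atTop 2] with m hm
    have a : (2 : ℝ) ≤ m := by exact_mod_cast hm
    have b := Real.log_pos (by linarith : (1 : ℝ) < m)
    have c : (m : ℝ) ≤ (m + 1 : ℕ) := by exact_mod_cast Nat.le_succ m
    refine one_div_le_one_div_of_le (by positivity) (mul_le_mul c (Real.rpow_le_rpow b.le
      (Real.log_le_log (by linarith) c) s0) (by positivity) (by positivity))

theorem sum_deg {u : ℕ → ℝ} (u0 : ∀ n, 0 ≤ u n) : Summable u ↔
    Summable fun m : ℕ => ∑ P ∈ prs (ZMod 2) m, u (Nat.count PB (enc P)) := by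
  have dj : ∀ s : Finset ℕ, (s : Set ℕ).PairwiseDisjoint (prs (ZMod 2)) := fun s a _ b _ hab =>
    disjoint_left.2 fun P h1 h2 => hab ((mm_prs.1 h1).2.1.symm.trans (mm_prs.1 h2).2.1)
  refine ⟨fun hu => summable_of_sum_le (c := ∑' n, u n) (fun d => sum_nonneg fun _ _ => u0 _)
    fun s => ?_, fun hu => summable_of_sum_le (c := ∑' m, ∑ P ∈ prs (ZMod 2) m,
      u (Nat.count PB (enc P))) u0 fun s => ?_⟩
  · rw [← sum_biUnion (dj s), ← sum_image (g := fun P => Nat.count PB (enc P))]
    · exact hu.sum_le_tsum _ fun _ _ => u0 _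
    · intro P h1 Q h2 e
      obtain ⟨_, -, h1⟩ := mem_biUnion.1 h1
      obtain ⟨_, -, h2⟩ := mem_biUnion.1 h2
      exact enc_inj (Nat.count_injective (pb_iff.2 (mm_prs.1 h1).2.2)
        (pb_iff.2 (mm_prs.1 h2).2.2) e)
  · have e : ∀ n, Nat.count PB (enc (dec (Nat.nth PB n))) = n := fun n => by
      rw [enc_dec, Nat.count_nth_of_infinite pb_inf]
    refine le_trans ?_ (hu.sum_le_tsum (s.image fun n => (dec (Nat.nth PB n)).natDegree)
      fun _ _ => sum_nonneg fun _ _ => u0 _)
    rw [← sum_biUnion (dj _), ← sum_congr rfl fun n _ => congrArg u (e n),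
      ← sum_image (g := fun n => dec (Nat.nth PB n)) (f := fun P => u (Nat.count PB (enc P)))
        fun a _ b _ h => by rw [← e a, ← e b]; exact congrArg (fun P => Nat.count PB (enc P)) h]
    refine sum_le_sum_of_subset_of_nonneg (fun P hP => ?_) fun _ _ _ => u0 _
    obtain ⟨n, hn, rfl⟩ := mem_image.1 hP
    exact mem_biUnion.2 ⟨_, mem_image_of_mem _ hn, mem_prs2 (pb_iff.1 (by
      rw [enc_dec]; exact Nat.nth_mem_of_infinite pb_inf n))⟩

theorem count_ge {m : ℕ} {P : (ZMod 2)[X]} (h : P ∈ prs (ZMod 2) (m + 1)) :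
    #(prs (ZMod 2) m) ≤ Nat.count PB (enc P) := by
  rw [Nat.count_eq_card_filter_range]
  refine card_le_card_of_injOn enc (fun Q hQ => ?_) enc_inj.injOn
  obtain ⟨-, q2, q3⟩ := mm_prs.1 (mem_coe.1 hQ)
  obtain ⟨-, p2, p3⟩ := mm_prs.1 h
  exact mem_coe.2 (mem_filter.2 ⟨mem_range.2 ((q2 ▸ enc_lt Q).trans_le (p2 ▸ le_enc p3.ne_zero)),
    pb_iff.2 q3⟩)

theorem idx : ∀ᶠ m : ℕ in atTop, ∀ P ∈ prs (ZMod 2) m,
    2 ^ m / (4 * m) ≤ (Nat.count PB (enc P) : ℝ) + 3 ∧
    (Nat.count PB (enc P) : ℝ) + 3 ≤ 15 * 2 ^ m / m ∧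
    Real.log m / 2 ≤ Real.log (Real.log ((Nat.count PB (enc P) : ℝ) + 3)) ∧
    Real.log (Real.log ((Nat.count PB (enc P) : ℝ) + 3)) ≤ 2 * Real.log m := by
  filter_upwards [eventually_ge_atTop 64] with m hm P hP
  have m0 : (64 : ℝ) ≤ m := by exact_mod_cast hm
  have n0 : (0 : ℝ) ≤ Nat.count PB (enc P) := Nat.cast_nonneg _
  have p0 : (m : ℝ) ≤ 2 ^ m := by exact_mod_cast Nat.lt_two_pow_self.le
  have a1 : 2 ^ m / (4 * m) ≤ (Nat.count PB (enc P) : ℝ) + 3 := by
    obtain ⟨e, rfl⟩ : ∃ e, m = e + 1 := ⟨m - 1, by omega⟩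
    have b1 := card_prs (k := ZMod 2) (by omega : 0 < e)
    have b2 := (Nat.cast_le (α := ℝ)).2 (count_ge hP)
    have b3 := mul_le_mul_of_nonneg_left b2 (Nat.cast_nonneg (α := ℝ) e)
    rw [qq2] at b1
    rw [div_le_iff₀ (by positivity), pow_succ]
    push_cast at m0 ⊢
    nlinarith
  have a2 : (Nat.count PB (enc P) : ℝ) + 3 ≤ 15 * 2 ^ m / m := by
    have b := count_le (f := P)
    rw [(mm_prs.1 hP).2.1] at b
    rw [le_div_iff₀ (by linarith)]
    nlinarith
  generalize (Nat.count PB (enc P) : ℝ) + 3 = y at a1 a2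
  have q0 : (0 : ℝ) < 2 ^ m / (4 * m) := by positivity
  have s0 : 8 ≤ √m := Real.le_sqrt_of_sq_le (by linarith)
  have s1 : √m * √m = m := Real.mul_self_sqrt (by linarith)
  have c1 : √m ≤ Real.log y := by
    refine le_trans ?_ (Real.log_le_log q0 a1)
    have b1 := Real.log_le_sub_one_of_pos (by positivity : 0 < 2 * √(m : ℝ))
    have b2 : Real.log (4 * m) = 2 * Real.log (2 * √m) := by
      rw [show (4 : ℝ) * m = (2 * √m) ^ 2 by nlinarith, Real.log_pow, Nat.cast_ofNat]
    have b3 := mul_le_mul_of_nonneg_left Real.log_two_gt_d9.le (by linarith : (0 : ℝ) ≤ m)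
    rw [Real.log_div (by positivity) (by positivity), Real.log_pow, b2]
    nlinarith
  have c2 : Real.log y ≤ (m : ℝ) ^ 2 := by
    have b1 : y ≤ 2 ^ m := a2.trans (by rw [div_le_iff₀ (by linarith)]; nlinarith)
    have b2 := Real.log_le_log (q0.trans_le a1) b1
    have b3 := mul_le_mul_of_nonneg_left Real.log_two_lt_d9.le (by linarith : (0 : ℝ) ≤ m)
    rw [Real.log_pow] at b2
    nlinarith
  refine ⟨a1, a2, ?_, ?_⟩
  · rw [← Real.log_sqrt (by linarith)]
    exact Real.log_le_log (by linarith) c1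
  · have := Real.log_le_log (by linarith) c2
    rwa [Real.log_pow, Nat.cast_ofNat] at this

theorem en (c : ℝ) : (Summable fun n : ℕ => 1 / (((n : ℝ) + 3) *
    Real.log (Real.log ((n : ℝ) + 3)) ^ c * ((Nat.nth PB (n + 1) : ℝ) - Nat.nth PB n))) ↔ 2 < c := by
  have ll : ∀ n : ℕ, 0 < Real.log (Real.log ((n : ℝ) + 3)) := fun n => Real.log_pos (by
    have := n.cast_nonneg (α := ℝ)
    rw [Real.lt_log_iff_exp_lt (by linarith)]
    linarith [Real.exp_one_lt_d9])
  rw [sum_deg fun n => by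
    have := gap_ge n
    have := ll n
    exact one_div_nonneg.2 (mul_nonneg (by positivity) (by linarith))]
  have e : ∀ m : ℕ, ∀ P ∈ prs (ZMod 2) m, ∀ y : ℝ, 1 / (y * ((Nat.nth PB (Nat.count PB (enc P) + 1) : ℝ)
      - Nat.nth PB (Nat.count PB (enc P)))) = 1 / y * (1 / ((nx (enc P) : ℝ) - enc P)) :=
    fun m P hP y => by rw [Nat.nth_count (pb_iff.2 (mm_prs.1 hP).2.2), one_div_mul_one_div, nx]
  have lg : ∀ᶠ m : ℕ in atTop, 2 ≤ Real.log m :=
    (Real.tendsto_log_atTop.comp tendsto_natCast_atTop_atTop).eventually_ge_atTop 2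
  have g0 : ∀ m : ℕ, ∀ P ∈ prs (ZMod 2) m, 0 ≤ 1 / ((nx (enc P) : ℝ) - enc P) := fun m P hP =>
    one_div_nonneg.2 (zero_le_one.trans (gap_pos hP))
  refine ⟨fun h => not_le.1 fun hc => ?_, fun hc => ?_⟩
  · obtain ⟨a, a0, ha⟩ := rs_low
    refine lt_irrefl _ ((bertrand zero_le_one).1 ((summable_mul_left_iff (a := a / 60)
      (by positivity)).1 (h.of_norm_bounded_eventually_nat ?_)))
    filter_upwards [ha, idx, lg, eventually_gt_atTop 0] with m h1 h2 h3 h4
    have m0 : (0 : ℝ) < m := by exact_mod_cast h4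
    have l0 : 0 < Real.log m := by linarith
    have b : 1 / (15 * 2 ^ m / m * (2 * Real.log m) ^ 2) * RS m ≤ ∑ P ∈ prs (ZMod 2) m,
        1 / (((Nat.count PB (enc P) : ℝ) + 3) * Real.log (Real.log ((Nat.count PB (enc P) : ℝ) + 3))
          ^ c * ((Nat.nth PB (Nat.count PB (enc P) + 1) : ℝ) - Nat.nth PB (Nat.count PB (enc P)))) := by
      rw [RS, mul_sum]
      refine sum_le_sum fun P hP => ?_
      obtain ⟨-, b2, b3, b4⟩ := h2 P hP
      have l1 := ll (Nat.count PB (enc P))
      rw [e m P hP]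
      refine mul_le_mul_of_nonneg_right (one_div_le_one_div_of_le (by positivity)
        (mul_le_mul b2 ?_ (by positivity) (by positivity))) (g0 m P hP)
      refine (Real.rpow_le_rpow_of_exponent_le (by linarith) hc).trans ?_
      rw [Real.rpow_two]
      exact pow_le_pow_left₀ l1.le b4 2
    refine le_trans ?_ b
    rw [Real.rpow_one, Real.norm_of_nonneg (by positivity), mul_comm _ (RS m), mul_one_div,
      mul_one_div, div_le_div_iff₀ (by positivity) (by positivity)]
    have := mul_le_mul_of_nonneg_right h1 (by positivity : 0 ≤ Real.log m / m)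
    refine le_trans (le_of_eq ?_) (this.trans (le_of_eq ?_)) <;> field_simp
    norm_num
  · obtain ⟨C, hC⟩ := rs_up
    refine (((bertrand (by linarith : 0 ≤ c - 1)).2 (by linarith)).mul_left
      (4 * 2 ^ c * C)).of_norm_bounded_eventually_nat ?_
    filter_upwards [hC, idx, lg, eventually_gt_atTop 0] with m h1 h2 h3 h4
    have m0 : (0 : ℝ) < m := by exact_mod_cast h4
    have l0 : 0 < Real.log m := by linarith
    rw [Real.norm_of_nonneg (sum_nonneg fun P hP => by
      have l1 := ll (Nat.count PB (enc P))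
      rw [e m P hP]
      exact mul_nonneg (by positivity) (g0 m P hP))]
    refine le_trans (b := 1 / (2 ^ m / (4 * m) * (Real.log m / 2) ^ c) * RS m) ?_ ?_
    · rw [RS, mul_sum]
      refine sum_le_sum fun P hP => ?_
      obtain ⟨b1, -, b3, -⟩ := h2 P hP
      rw [e m P hP]
      exact mul_le_mul_of_nonneg_right (one_div_le_one_div_of_le (by positivity) (mul_le_mul b1
        (Real.rpow_le_rpow (by positivity) b3 (by linarith)) (by positivity) (by positivity)))
        (g0 m P hP)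
    · rw [← le_div_iff₀' (by positivity)] at h1
      refine (mul_le_mul_of_nonneg_left h1 (by positivity)).trans (le_of_eq ?_)
      have := Real.rpow_pos_of_pos l0 c
      rw [Real.div_rpow l0.le zero_le_two, Real.rpow_sub_one l0.ne']
      field_simp

end Pool.Agent.HTW
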