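import Pool.Agent.MP_00acf4_nt.Tw.Sieve

/-! Every even number is a gap between consecutive primes of `F_2[X]` in binary order. -/

set_option autoImplicit false

open Polynomial Finset Filter Topology
open scoped Classical BigOperators

noncomputable section
namespace Pool.Agent.HTW
open Pool.Agent.MP_a4a062_nt.C2 Pool.Agent.HGB Pool.Agent.HGS Pool.Agent.MP_b5e119_nt.GB

theorem enc_split {j : ℕ} (u : (ZMod 2)[X]) {g : (ZMod 2)[X]} (hg : g.degree < j) :
    enc (X ^ j * u + g) = 2 ^ j * enc u + enc g := by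
  have z : ∀ i, j ≤ i → g.coeff i = 0 := fun i h =>
    coeff_eq_zero_of_degree_lt (hg.trans_le (by exact_mod_cast h))
  have e : (X ^ j * u + g).support = u.support.map (addRightEmbedding j) ∪ g.support := by
    ext i
    simp only [mem_support_iff, mem_union, Finset.mem_map, addRightEmbedding_apply, coeff_add,
      coeff_X_pow_mul']
    by_cases h : j ≤ i
    · rw [if_pos h, z i h, add_zero]
      refine ⟨fun a => Or.inl ⟨i - j, a, by omega⟩, fun a => ?_⟩
      rcases a with ⟨b, c, rfl⟩ | a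
      · simpa using c
      · exact absurd rfl a
    · rw [if_neg h, zero_add]
      exact ⟨Or.inr, fun a => a.resolve_left fun ⟨b, _, c⟩ => by omega⟩
  unfold enc
  rw [e, sum_union, sum_map, mul_sum]
  · congr 1
    exact sum_congr rfl fun i _ => by rw [addRightEmbedding_apply, pow_add, mul_comm]
  · refine disjoint_left.2 fun i h1 h2 => ?_
    obtain ⟨b, -, rfl⟩ := Finset.mem_map.1 h1
    exact mem_support_iff.1 h2 (z _ (Nat.le_add_left _ _))

theorem enc_lt' {j : ℕ} {g : (ZMod 2)[X]} (hg : g.degree < j) : enc g < 2 ^ j :=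
  Nat.geomSum_lt le_rfl fun i hi => by
    exact_mod_cast (le_degree_of_ne_zero (mem_support_iff.1 hi)).trans_lt hg

theorem enc_zero : enc 0 = 0 := by simp [enc]

theorem enc_even (u : (ZMod 2)[X]) : enc (X * u) = 2 * enc u := by
  simpa [enc_zero] using enc_split (j := 1) u (g := 0) (by simp)

theorem enc_odd (u : (ZMod 2)[X]) : enc (X * u + 1) = 2 * enc u + 1 := by
  have e : enc 1 = 1 := by rw [enc, ← C_1, support_C one_ne_zero]; simp
  simpa [e] using enc_split (j := 1) u (g := 1) (by simp)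

theorem enc_surj (n : ℕ) : ∃ f, enc f = n := by
  induction n using Nat.strong_induction_on with
  | _ n ih =>
    rcases Nat.eq_zero_or_pos n with h | h
    · exact ⟨0, h ▸ enc_zero⟩
    obtain ⟨f, hf⟩ := ih (n / 2) (by omega)
    rcases Nat.mod_two_eq_zero_or_one n with a | a
    · exact ⟨X * f, by rw [enc_even]; omega⟩
    · exact ⟨X * f + 1, by rw [enc_odd]; omega⟩

theorem refl_irr {m : ℕ} {g : (ZMod 2)[X]} (h : Irreducible g) (hg : g.natDegree = m) (hm : 2 ≤ m) :
    reflect m g ∈ prs (ZMod 2) m := by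
  have c0 : g.coeff 0 ≠ 0 := fun c => by
    have := natDegree_eq_of_degree_eq (degree_eq_degree_of_associated
      (irreducible_X.associated_of_dvd h (X_dvd_iff.2 c)))
    rw [natDegree_X] at this
    omega
  have e : g.mirror = reflect m g := by
    rw [mirror, Nat.le_zero.1 (natTrailingDegree_le_of_ne_zero c0), pow_zero, mul_one, reverse, hg]
  have i : Irreducible g.mirror := Irreducible.map (f := (⟨⟨mirror, mirror, mirror_mirror,
    mirror_mirror⟩, fun p q => mirror_mul_of_domain p q⟩ : (ZMod 2)[X] ≃* (ZMod 2)[X])) h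
  have := mem_prs2 i
  rwa [mirror_natDegree, hg, e] at this

theorem twin_prog {D a : (ZMod 2)[X]} (hD : D ≠ 0) (ha : a.coeff 0 = 1) (j : ℕ) :
    ∀ᶠ m : ℕ in atTop, Real.exp (-10) / 2 / 2 ^ j * 2 ^ m ≤ (m : ℝ) ^ 2 *
      #{P ∈ prs (ZMod 2) m | X ^ j ∣ P - a ∧ Irreducible (P + X * (X + 1) * D)} := by
  filter_upwards [topS (k := ZMod 2) (by norm_num : (0 : ℝ) < 1 / 2), eventually_ge_atTop (j ^ 21),
    eventually_ge_atTop (D.natDegree + 3), eventually_ge_atTop a.natDegree] with m H m1 m2 m3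
  have jm : j ≤ m := (Nat.le_self_pow (by norm_num) j).trans m1
  have e : ∀ F g : (ZMod 2)[X], F - g = g + F := fun F g => by rw [CharTwo.sub_eq_add, add_comm]
  have hF : reflect m (X * (X + 1) * D) = X * (X + 1) * reflect (m - 3) D := by
    have r : reflect 3 (X * (X + 1) : (ZMod 2)[X]) = X * (X + 1) := by
      rw [show (X * (X + 1) : (ZMod 2)[X]) = X ^ 2 + X ^ 1 by ring, reflect_add, reflect_monomial,
        reflect_monomial, revAt_le (by norm_num), revAt_le (by norm_num), add_comm]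
    have := reflect_mul (X * (X + 1)) D (F := 3) (G := m - 3) (by rw [hdeg]; omega) (by omega)
    rwa [r, Nat.add_sub_cancel' (by omega)] at this
  have h0 : (X * (X + 1) : (ZMod 2)[X]) ≠ 0 := fun h => by simpa [h] using hdeg
  have F0 : reflect m (X * (X + 1) * D) ≠ 0 := mt reflect_eq_zero_iff.1 (mul_ne_zero h0 hD)
  have dF : (reflect m (X * (X + 1) * D)).natDegree < m := by
    have b1 := natDegree_mul_le (p := X * (X + 1)) (q := reflect (m - 3) D)
    have b2 := natDegree_reflect_le (N := m - 3) (p := D)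
    rw [hF]
    rw [hdeg] at b1
    omega
  have Ev : Even2 (ZMod 2) (reflect m (X * (X + 1) * D)) := fun _ => hF ▸ dvd_mul_right _ _
  have hA : reflect m a ∈ mon (ZMod 2) m := by
    have b1 : (reflect m a).natDegree ≤ m := natDegree_reflect_le.trans (max_le le_rfl m3)
    have b2 : (reflect m a).coeff m = 1 := by rw [coeff_reflect, revAt_le le_rfl, Nat.sub_self, ha]
    exact mem_mon.2 ⟨monic_of_natDegree_le_of_coeff_eq_one m b1 b2,
      natDegree_eq_of_le_of_coeff_ne_zero b1 (b2 ▸ one_ne_zero)⟩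
  have hg : ∀ g ∈ mon (ZMod 2) m, reflect m (X * (X + 1) * D) - g ∈ mon (ZMod 2) m := fun g hg => by
    obtain ⟨b1, b2⟩ := mem_mon.1 hg
    rw [e]
    refine mem_mon.2 ⟨b1.add_of_left (degree_lt_degree (by omega)), ?_⟩
    rw [natDegree_add_eq_left_of_natDegree_lt (by omega), b2]
  have b1 := (abs_le.1 (H j m _ _ m1 hA F0 (by omega) le_rfl (by omega) hg Ev)).1
  have b3 := ge_of_tendsto' (ss_lim F0) (ss_ge Ev)
  have e0 := Real.exp_pos (-10)
  have c : #{g ∈ prs (ZMod 2) m | (g - reflect m a).degree < (m - j : ℕ) ∧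
      Irreducible (reflect m (X * (X + 1) * D) - g)} ≤
      #{P ∈ prs (ZMod 2) m | X ^ j ∣ P - a ∧ Irreducible (P + X * (X + 1) * D)} := by
    refine card_le_card_of_injOn (reflect m) (fun g hg' => ?_) fun g _ g' _ h => by
      simpa using congrArg (reflect m) h
    obtain ⟨g1, g2, g3⟩ := mem_filter.1 (mem_coe.1 hg')
    obtain ⟨g4, g5, g6⟩ := mm_prs.1 g1
    refine mem_coe.2 (mem_filter.2 ⟨refl_irr g6 g5 (by omega), X_pow_dvd_iff.2 fun i hi => ?_, ?_⟩)
    · rw [← reflect_reflect (N := m) (p := a), ← reflect_sub, coeff_reflect, revAt_le (by omega)]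
      exact coeff_eq_zero_of_degree_lt (g2.trans_le (by exact_mod_cast (by omega)))
    · have := (mm_prs.1 (refl_irr g3 (mem_mon.1 (hg g (mem_mon.2 ⟨g4, g5⟩))).2 (by omega))).2.2
      rwa [reflect_sub, reflect_reflect, e] at this
  have c' := (Nat.cast_le (α := ℝ)).2 c
  generalize ∏' p : {p : (ZMod 2)[X] // p.Monic ∧ Irreducible p},
    (1 - nu (reflect m (X * (X + 1) * D)) p * ri p.1) / (1 - ri p.1) ^ 2 = T at *
  have T0 : 0 < T := e0.trans_le b3
  have p2 : (2 : ℝ) ^ m = 2 ^ j * 2 ^ (m - j) := by rw [← pow_add, Nat.add_sub_cancel' jm]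
  rw [qq2, le_sub_iff_add_le, le_div_iff₀ T0, le_div_iff₀ (by positivity)] at b1
  have b4 := mul_le_mul_of_nonneg_right b3 (by positivity : (0 : ℝ) ≤ 2 ^ (m - j))
  have b5 := mul_le_mul_of_nonneg_left c' (by positivity : (0 : ℝ) ≤ (m : ℝ) * m)
  rw [p2, ← mul_assoc, div_mul_cancel₀ _ (by positivity), sq]
  linarith

/-- `y` and `y + d` are consecutive binary values of irreducible polynomials. -/
def Gp (d y : ℕ) : Prop := PB y ∧ PB (y + d) ∧ ∀ w, y < w → w < y + d → ¬ PB w

/-- The starting points with `m + 1` binary digits of gaps of length `d`. -/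
def GI (d m : ℕ) : Finset ℕ := {y ∈ Ico (2 ^ m) (2 ^ (m + 1)) | Gp d y}

theorem gap_deg {d : ℕ} (hd : Even d) (d0 : 0 < d) : ∃ c : ℝ, 0 < c ∧ ∀ᶠ m : ℕ in atTop,
    c * 2 ^ m ≤ (m : ℝ) ^ 2 * #(GI d m) := by
  obtain ⟨e, rfl⟩ := hd
  obtain ⟨D, rfl⟩ := enc_surj e
  have hD : D ≠ 0 := fun h => by simp [h, enc_zero] at d0
  have h0 : (X * (X + 1) : (ZMod 2)[X]) ≠ 0 := fun h => by simpa [h] using hdeg
  obtain ⟨j, hj⟩ : ∃ j, j = D.natDegree + 3 := ⟨_, rfl⟩
  have dg : ∀ g : (ZMod 2)[X], g.natDegree < j → g.degree < j := fun g h =>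
    degree_le_natDegree.trans_lt (by exact_mod_cast h)
  have n1 : (X * D).natDegree = D.natDegree + 1 := natDegree_X_mul hD
  have n2 : (X * (X * D)).natDegree = D.natDegree + 1 + 1 := by
    rw [natDegree_X_mul (mul_ne_zero X_ne_zero hD), n1]
  have da : (X * D + 1).degree < (j : WithBot ℕ) := dg _ (by rw [← C_1, natDegree_add_C]; omega)
  have db : (X * (X * D) + 1).degree < (j : WithBot ℕ) := dg _ (by rw [← C_1, natDegree_add_C]; omega)
  have dh : (X * (X + 1) * D).natDegree ≤ j := by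
    have := natDegree_mul_le (p := X * (X + 1)) (q := D)
    rw [hdeg] at this
    omega
  have ab : X * D + 1 + X * (X + 1) * D = X * (X * D) + 1 := by
    linear_combination (X * D) * (CharTwo.two_eq_zero (R := (ZMod 2)[X]))
  have e0 := Real.exp_pos (-10)
  obtain ⟨c, hc⟩ : ∃ c : ℝ, c = Real.exp (-10) / 2 / 2 ^ j := ⟨_, rfl⟩
  have c0 : 0 < c := by rw [hc]; positivity
  refine ⟨c / 2, by positivity, ?_⟩
  filter_upwards [twin_prog hD (a := X * D + 1) (by simp) j,
    triple (k := ZMod 2) j (by omega) (by positivity : 0 < c / 2 / 2 ^ j)] with m h1 h2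
  set B : (ZMod 2)[X] → Finset (ZMod 2)[X] := fun b => if b ≠ 0 ∧ b - X * (X + 1) * D ≠ 0 then
    {x ∈ mon (ZMod 2) m | Irreducible x ∧ Irreducible (x + X * (X + 1) * D) ∧ Irreducible (x + b)}
    else ∅ with hB
  have s1 : ∀ b ∈ box (ZMod 2) j, (m : ℝ) ^ 2 * #(B b) ≤ c / 2 / 2 ^ j * 2 ^ m := fun b hb => by
    simp only [hB]
    split_ifs with h
    · rw [← qq2]
      exact qq2 ▸ h2 _ b (mul_ne_zero h0 hD) h.1 h.2 dh (natDegree_le_of_degree_le (mem_box.1 hb).le)
    · simp only [card_empty, Nat.cast_zero, mul_zero]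
      positivity
  have s2 := sum_le_card_nsmul _ _ _ s1
  rw [nsmul_eq_mul, card_box, qq2, ← mul_sum, ← mul_assoc, mul_div_cancel₀ _ (by positivity)] at s2
  have s3 : #{P ∈ prs (ZMod 2) m | X ^ j ∣ P - (X * D + 1) ∧ Irreducible (P + X * (X + 1) * D)} ≤
      ∑ b ∈ box (ZMod 2) j, #(B b) + #(GI (enc D + enc D) m) := by
    rw [← card_filter_add_card_filter_not fun P => P ∈ (box (ZMod 2) j).biUnion B]
    refine add_le_add ((card_le_card fun P hP => (mem_filter.1 hP).2).trans card_biUnion_le)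
      (card_le_card_of_injOn enc (fun P hP => ?_) enc_inj.injOn)
    obtain ⟨hP, nb⟩ := mem_filter.1 (mem_coe.1 hP)
    obtain ⟨p1, ⟨u, hu⟩, p3⟩ := mem_filter.1 hP
    obtain ⟨p4, p5, p6⟩ := mm_prs.1 p1
    have u1 : P = X ^ j * u + (X * D + 1) := by rw [← hu, sub_add_cancel]
    have v1 : enc P = 2 ^ j * enc u + (2 * enc D + 1) := by rw [u1, enc_split u da, enc_odd]
    have v2 : enc (P + X * (X + 1) * D) = 2 ^ j * enc u + (2 * (2 * enc D) + 1) := by
      rw [u1, add_assoc, ab, enc_split u db, enc_odd, enc_even]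
    have v3 := enc_lt' db
    rw [enc_odd, enc_even] at v3
    refine mem_coe.2 (mem_filter.2 ⟨mem_Ico.2 ⟨p5 ▸ le_enc p6.ne_zero, p5 ▸ enc_lt P⟩, ⟨P, p6, rfl⟩,
      ⟨_, p3, by omega⟩, fun w w1 w2 ⟨Q, q1, q2⟩ => nb ?_⟩)
    have r1 := modByMonic_add_div Q (X ^ j)
    have r2 := degree_modByMonic_lt Q (monic_X_pow j)
    rw [degree_X_pow] at r2
    generalize Q %ₘ X ^ j = g, Q /ₘ X ^ j = v at r1 r2
    have r3 := enc_split v r2
    have r4 := enc_lt' r2
    rw [add_comm, r1] at r3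
    have r5 : enc v = enc u := by
      rcases lt_trichotomy (enc v) (enc u) with h | h | h
      · have := Nat.mul_le_mul_left (2 ^ j) (Nat.succ_le_of_lt h)
        rw [Nat.mul_succ] at this
        omega
      · exact h
      · have := Nat.mul_le_mul_left (2 ^ j) (Nat.succ_le_of_lt h)
        rw [Nat.mul_succ] at this
        omega
    have r6 : P + (g - (X * D + 1)) = Q := by rw [u1, ← r1, enc_inj r5]; ring
    refine mem_biUnion.2 ⟨g - (X * D + 1),
      mem_box.2 ((degree_sub_le _ _).trans_lt (max_lt r2 da)), ?_⟩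
    have r7 : g - (X * D + 1) ≠ 0 := fun h => by
      rw [h, add_zero] at r6
      rw [r6] at w1
      omega
    have r8 : g - (X * D + 1) - X * (X + 1) * D ≠ 0 := fun h => by
      rw [sub_eq_zero.1 h] at r6
      rw [r6] at v2
      omega
    simp only [hB]
    rw [if_pos ⟨r7, r8⟩]
    exact mem_filter.2 ⟨mem_mon.2 ⟨p4, p5⟩, p6, p3, r6 ▸ q1⟩
  have s4 := mul_le_mul_of_nonneg_left ((Nat.cast_le (α := ℝ)).2 s3) (sq_nonneg (m : ℝ))
  push_cast at s4
  rw [← hc] at h1
  linarith

end Pool.Agent.HTW
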