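import Pool.Agent.MP_00acf4_nt.Tw.Short

/-! A three-dimensional Brun sieve over `k[X]`: prime triples are rarer than prime pairs. -/

set_option autoImplicit false

open Polynomial Finset Filter Topology
open scoped Classical BigOperators

noncomputable section
namespace Pool.Agent.HTW
open Pool.Agent.MP_a4a062_nt.C2 Pool.Agent.HGB Pool.Agent.HGS

variable {k : Type} [Field k] [Fintype k]

theorem avgP {N : ℕ} {U : k[X] → ℝ} {M p : k[X]} (hU : ∀ x s, U (x + M * s) = U x) (hp : p ≠ 0)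
    (hc : IsCoprime M p) (hN : M.natDegree + p.natDegree ≤ N) (b : k[X]) :
    ∑ x ∈ mon k N, (if p ∣ x + b then U x else 0) = (∑ x ∈ mon k N, U x) * ri p := by
  have q0 := qpos (k := k)
  have h1 : ∀ s ∈ box k p.natDegree, ∑ x ∈ mon k N, (if p ∣ x + b then U x else 0) =
      ∑ x ∈ mon k N, (if p ∣ x + b + M * s then U x else 0) := fun s hs => by
    rw [← sum_shift (s := M * s)
      ((deg_mul_lt le_rfl (mem_box.1 hs)).trans_le (by exact_mod_cast hN))]
    exact sum_congr rfl fun x _ => by rw [hU, add_right_comm]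
  have h2 := sum_congr rfl h1
  rw [sum_const, nsmul_eq_mul, card_box, sum_comm] at h2
  have h3 : ∀ x, ∑ s ∈ box k p.natDegree, (if p ∣ x + b + M * s then U x else 0) = U x :=
    fun x => by
      have h := exp_box_dvd hp le_rfl hc (x + b)
      rw [box_exp, div_left_inj' (by positivity)] at h
      refine Eq.trans ?_ ((congrArg (U x * ·) h).trans (mul_one _))
      rw [mul_sum]
      exact sum_congr rfl fun s _ => by split_ifs <;> simp
  rw [sum_congr rfl fun x _ => h3 x] at h2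
  rw [← h2, ri]
  field_simp

/-- The density of the residues `x` with `p ∣ x (x + a) (x + b)`. -/
def e3 (a b p : k[X]) : ℝ :=
  (1 + (if p ∣ a then 0 else 1) + if p ∣ b ∨ p ∣ b - a then 0 else 1) * ri p

theorem e3_bd (a b p : k[X]) : 0 ≤ e3 a b p ∧ e3 a b p ≤ 3 * ri p := by
  have := ri_pos p
  unfold e3
  split_ifs <;> constructor <;> linarith

omit [Fintype k] in
theorem e3_pt {p : k[X]} (hp : Irreducible p) (a b x : k[X]) (y : ℝ) :
    (if p ∣ x * (x + a) * (x + b) then y else 0) = (if p ∣ x + 0 then y else 0) +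
      (if p ∣ a then 0 else 1) * (if p ∣ x + a then y else 0) +
      (if p ∣ b ∨ p ∣ b - a then 0 else 1) * (if p ∣ x + b then y else 0) := by
  have r1 : p ∣ x → (p ∣ x + a ↔ p ∣ a) := fun h => dvd_add_right h
  have r2 : p ∣ x → (p ∣ x + b ↔ p ∣ b) := fun h => dvd_add_right h
  have r3 : p ∣ x + a → (p ∣ x + b ↔ p ∣ b - a) := fun h => by
    rw [show x + b = x + a + (b - a) by ring]
    exact dvd_add_right h
  have r4 : p ∣ a → (p ∣ x + a ↔ p ∣ x) := fun h => dvd_add_left h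
  have r5 : p ∣ b → (p ∣ x + b ↔ p ∣ x) := fun h => dvd_add_left h
  have r6 : p ∣ b - a → (p ∣ x + b ↔ p ∣ x + a) := fun h => by
    rw [show x + b = x + a + (b - a) by ring]
    exact dvd_add_left h
  simp only [hp.prime.dvd_mul, add_zero]
  generalize (p ∣ x) = A0, (p ∣ x + a) = A1, (p ∣ x + b) = A2, (p ∣ a) = B1, (p ∣ b) = B2,
    (p ∣ b - a) = B3 at *
  by_cases A0 <;> by_cases A1 <;> by_cases A2 <;> by_cases B1 <;> by_cases B2 <;> by_cases B3 <;>
    simp_all

theorem dens {z m : ℕ} (a b : k[X]) {S : Finset k[X]} (hS : S ⊆ sp k z) (hm : #S * z ≤ m) :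
    ∑ x ∈ mon k m, (if ∏ p ∈ S, p ∣ x * (x + a) * (x + b) then (1 : ℝ) else 0) =
      qq k ^ m * ∏ p ∈ S, e3 a b p := by
  induction S using Finset.induction_on with
  | empty => simp [card_mon]
  | insert p S hp ih =>
    have hS' := (subset_insert _ _).trans hS
    rw [card_insert_of_notMem hp, add_mul, one_mul] at hm
    obtain ⟨p1, p2, p3⟩ := mem_sp.1 (hS (mem_insert_self _ _))
    have d1 := deg_prod_le hS'
    have A := fun c => avgP (N := m) (M := ∏ p ∈ S, p) (p := p)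
      (U := fun x => if ∏ p ∈ S, p ∣ x * (x + a) * (x + b) then (1 : ℝ) else 0) (fun x s => by
        refine if_congr ?_ rfl rfl
        generalize ∏ p ∈ S, p = M
        rw [show (x + M * s) * (x + M * s + a) * (x + M * s + b) = x * (x + a) * (x + b) +
          M * (s * ((x + M * s + a) * (x + M * s + b) + x * (x + M * s + b) + x * (x + a))) by ring]
        exact dvd_add_left (dvd_mul_right _ _)) p1.ne_zero
      (IsCoprime.prod_left fun c hc => br_cop (hS' hc) (hS (mem_insert_self _ _))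
        fun e => hp (e ▸ hc)) (by omega) c
    have B : ∀ x : k[X], (if ∏ p ∈ insert p S, p ∣ x * (x + a) * (x + b) then (1 : ℝ) else 0) =
        if p ∣ x * (x + a) * (x + b) then
          (if ∏ p ∈ S, p ∣ x * (x + a) * (x + b) then (1 : ℝ) else 0) else 0 := fun x => by
      rw [← ite_and]
      refine if_congr ?_ rfl rfl
      rw [br_prod_dvd hS, br_prod_dvd hS', forall_mem_insert]
    rw [sum_congr rfl fun x _ => (B x).trans (e3_pt p2 a b x _), sum_add_distrib, sum_add_distrib,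
      ← mul_sum, ← mul_sum, A, A, A, ih hS' (by omega), prod_insert hp, e3]
    ring

theorem sieve3 {z u m : ℕ} (a b : k[X]) (hm : 2 * u * z ≤ m) :
    (#{x ∈ mon k m | Rough z (x * (x + a) * (x + b))} : ℝ) ≤ qq k ^ m *
      (∏ p ∈ sp k z, (1 - e3 a b p) + (∏ p ∈ sp k z, (1 - ri p)⁻¹) ^ 6 / 4 ^ u) := by
  have q0 := qpos (k := k)
  have gen : ∀ y : ℝ, ∑ S ∈ (sp k z).powerset, y ^ #S * ∏ p ∈ S, e3 a b p =
      ∏ p ∈ sp k z, (1 + y * e3 a b p) := fun y => by
    rw [prod_one_add]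
    exact sum_congr rfl fun S _ => by rw [prod_mul_distrib, prod_const]
  have e2 : ∏ p ∈ sp k z, (1 + 2 * e3 a b p) ≤ (∏ p ∈ sp k z, (1 - ri p)⁻¹) ^ 6 := by
    rw [← prod_pow]
    refine prod_le_prod (fun p _ => by linarith [(e3_bd a b p).1]) fun p hp => ?_
    have a1 := ri_pos p
    have b1 := ri_le (mem_sp.1 hp).2.1
    have c : 1 + ri p ≤ (1 - ri p)⁻¹ := by
      rw [← one_div, le_div_iff₀ (by linarith)]
      nlinarith
    have d := one_add_mul_le_pow (a := ri p) (by linarith) 6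
    have e := pow_le_pow_left₀ (by linarith) c 6
    push_cast at d
    linarith [(e3_bd a b p).2]
  have e1 : ∏ p ∈ sp k z, (1 - e3 a b p) =
      ∑ S ∈ (sp k z).powerset, (-1) ^ #S * ∏ p ∈ S, e3 a b p := by
    rw [gen]
    exact prod_congr rfl fun p _ => by ring
  rw [card_filter, Nat.cast_sum]
  refine le_trans (sum_le_sum (g := fun x => brun z u (x * (x + a) * (x + b))) fun x _ => ?_) ?_
  · simpa using brun_ge z u (x * (x + a) * (x + b))
  refine le_trans ?_ (mul_le_mul_of_nonneg_left (add_le_add_right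
    (div_le_div_of_nonneg_right e2 (by positivity)) _) (by positivity))
  simp only [brun_pow]
  rw [sum_comm, e1, ← gen, sum_div, ← sum_add_distrib, mul_sum]
  refine sum_le_sum fun S hS => ?_
  have h0 : 0 ≤ ∏ p ∈ S, e3 a b p := prod_nonneg fun p _ => (e3_bd a b p).1
  rw [← mul_sum]
  split_ifs with h
  · rw [dens a b (mem_powerset.1 hS) ((Nat.mul_le_mul_right z h).trans hm), mul_left_comm]
    exact mul_le_mul_of_nonneg_left (le_add_of_nonneg_right (by positivity)) (by positivity)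
  · have key : (1 : ℝ) ≤ 2 ^ #S / 4 ^ u := by
      rw [one_le_div (by positivity), show (4 : ℝ) = 2 ^ 2 by norm_num, ← pow_mul]
      exact pow_le_pow_right₀ (by norm_num) (by omega)
    have k2 : (-1 : ℝ) ≤ (-1) ^ #S := by
      rcases neg_one_pow_eq_or ℝ #S with e | e <;> linarith
    rw [zero_mul, mul_div_right_comm, ← add_mul]
    exact mul_nonneg (by positivity) (mul_nonneg (by linarith) h0)

theorem main3 {z j : ℕ} {a b : k[X]} (hz : 1 ≤ z) (hj : 1 ≤ j) (ha : a ≠ 0) (hb : b ≠ 0)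
    (hab : b - a ≠ 0) (da : a.natDegree ≤ j) (db : b.natDegree ≤ j) :
    ∏ p ∈ sp k z, (1 - e3 a b p) ≤ 16 ^ #(sp k j) / (z : ℝ) ^ 3 := by
  have q2 := two_le_qq (k := k)
  have dab : (b - a).natDegree ≤ j := (natDegree_sub_le _ _).trans (max_le db da)
  have hE := (pi_near (k := k) hz (z + 1)).1
  rw [sum_congr rfl fun i hi => fr_one (k := k) (· ≤ z) i fun d _ h =>
    h.trans (Nat.lt_succ_iff.1 (mem_range.1 hi)), sum_const, card_range, nsmul_eq_mul, mul_one,
    prod_inv_distrib] at hE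
  have z0 : (0 : ℝ) < z := by exact_mod_cast hz
  have P0 : 0 < ∏ p ∈ sp k z, (1 - ri p) :=
    prod_pos fun p hp => by linarith [ri_le (mem_sp.1 hp).2.1]
  have P1 : ∏ p ∈ sp k z, (1 - ri p) ≤ 1 / z := by
    rw [one_div, le_inv_comm₀ P0 z0]
    push_cast at hE
    linarith
  have P2 : ∏ p ∈ sp k z, (if p.natDegree ≤ j then (16 : ℝ) else 1) ≤ 16 ^ #(sp k j) := by
    rw [prod_ite, prod_const, prod_const_one, mul_one]
    refine pow_le_pow_right₀ (by norm_num) (card_le_card fun p hp => ?_)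
    obtain ⟨h1, h2⟩ := mem_filter.1 hp
    exact mem_sp.2 ⟨(mem_sp.1 h1).1, (mem_sp.1 h1).2.1, h2⟩
  refine (le_abs_self _).trans ?_
  rw [abs_prod]
  refine le_trans (prod_le_prod (g := fun p => (if p.natDegree ≤ j then (16 : ℝ) else 1) *
    (1 - ri p) ^ 3) (fun p _ => abs_nonneg _) fun p hp => ?_) ?_
  · have a1 := ri_pos p
    have b1 := ri_le (mem_sp.1 hp).2.1
    obtain ⟨c1, c2⟩ := e3_bd a b p
    split_ifs with h
    · have := pow_le_pow_left₀ (by norm_num) (by linarith : 1 / 2 ≤ 1 - ri p) 3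
      rw [abs_le]
      constructor <;> linarith
    · have n : ∀ c : k[X], c ≠ 0 → c.natDegree ≤ j → ¬ p ∣ c := fun c h1 h2 h3 =>
        h ((natDegree_le_of_dvd h3 h1).trans h2)
      have e : e3 a b p = 3 * ri p := by
        rw [e3, if_neg (n a ha da), if_neg (not_or.2 ⟨n b hb db, n _ hab dab⟩)]
        ring
      have r4 : ri p ≤ 1 / 4 := by
        have h1 : qq k ^ 2 ≤ qq k ^ p.natDegree := pow_le_pow_right₀ (by linarith) (by omega)
        unfold ri
        exact one_div_le_one_div_of_le (by norm_num) (by nlinarith)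
      have d := one_add_mul_le_pow (a := -ri p) (by linarith) 3
      push_cast at d
      rw [e, abs_of_nonneg (by linarith), one_mul, sub_eq_add_neg 1 (ri p)]
      linarith
  · rw [prod_mul_distrib, prod_pow, div_eq_mul_one_div, ← one_div_pow]
    exact mul_le_mul P2 (pow_le_pow_left₀ P0.le P1 3) (by positivity) (by positivity)

omit [Fintype k] in
theorem rough_irr {z : ℕ} {g : k[X]} (h : Irreducible g) (hz : z < g.natDegree) : Rough z g :=
  fun p h1 h2 => by rwa [natDegree_eq_of_degree_eq (degree_eq_degree_of_associated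
    (h1.associated_of_dvd h h2))]

theorem triple (j : ℕ) (hj : 1 ≤ j) {ε : ℝ} (ε0 : 0 < ε) : ∀ᶠ m : ℕ in atTop, ∀ a b : k[X],
    a ≠ 0 → b ≠ 0 → b - a ≠ 0 → a.natDegree ≤ j → b.natDegree ≤ j →
    (m : ℝ) ^ 2 * #{x ∈ mon k m | Irreducible x ∧ Irreducible (x + a) ∧ Irreducible (x + b)} ≤
      ε * qq k ^ m := by
  have q0 := qpos (k := k)
  obtain ⟨T, hT⟩ := eventually_atTop.1 (((tendsto_pow_const_div_const_pow_of_one_lt 62
    (by norm_num : (1 : ℝ) < 4)).eventually_le_const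
      (by positivity : 0 < ε / 2 / (2 ^ 20 * 768 ^ 6))).and
    (((tendsto_natCast_atTop_atTop (R := ℝ)).eventually_ge_atTop
      (2 ^ 21 * 16 ^ #(sp k j) / ε)).and (eventually_ge_atTop (j + 2))))
  refine eventually_atTop.2 ⟨T ^ 10, fun m hm a b ha hb hab da db => ?_⟩
  obtain ⟨t, t1, t2, tT⟩ : ∃ t, t ^ 10 ≤ m ∧ m ≤ (t + 1) ^ 10 ∧ T ≤ t :=
    ⟨Nat.nthRoot 10 m, Nat.pow_nthRoot_le (Or.inl (by norm_num)),
      (Nat.lt_pow_nthRoot_add_one (by norm_num) m).le, (Nat.le_nthRoot_iff (by norm_num)).2 hm⟩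
  obtain ⟨h1, h2, h3⟩ := hT t tT
  have p7 : t ≤ t ^ 7 := Nat.le_self_pow (by norm_num) t
  have p8 : 2 * t * t ^ 7 ≤ m := by
    have : 2 * t * t ^ 7 = 2 * t ^ 8 := by ring
    have : 2 * t ^ 8 ≤ t ^ 2 * t ^ 8 := Nat.mul_le_mul_right _ (by nlinarith)
    have : t ^ 2 * t ^ 8 = t ^ 10 := by ring
    omega
  have zm : t ^ 7 < m := by nlinarith
  have z1 : 1 ≤ t ^ 7 := by omega
  have m2 : (m : ℝ) ^ 2 ≤ 2 ^ 20 * (t : ℝ) ^ 20 := by
    have a1 : (t + 1) ^ 10 ≤ (2 * t) ^ 10 := Nat.pow_le_pow_left (by omega) 10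
    have a2 := Nat.pow_le_pow_left (t2.trans a1) 2
    rw [← pow_mul, mul_pow] at a2
    exact_mod_cast a2
  have s1 : (#{x ∈ mon k m | Irreducible x ∧ Irreducible (x + a) ∧ Irreducible (x + b)} : ℝ) ≤
      #{x ∈ mon k m | Rough (t ^ 7) (x * (x + a) * (x + b))} := by
    refine Nat.cast_le.2 (card_le_card fun x hx => ?_)
    obtain ⟨x1, x2, x3, x4⟩ := mem_filter.1 hx
    have x5 := (mem_mon.1 x1).2
    refine mem_filter.2 ⟨x1, rough_mul.2 ⟨rough_mul.2 ⟨rough_irr x2 (by omega), rough_irr x3 ?_⟩,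
      rough_irr x4 ?_⟩⟩ <;> rw [natDegree_add_eq_left_of_natDegree_lt (by omega)] <;> omega
  have s2 := sieve3 a b p8
  have s3 := main3 z1 hj ha hb hab da db
  have hE := (pi_near (k := k) z1 0).2.1
  have hE0 : 0 ≤ ∏ p ∈ sp k (t ^ 7), (1 - ri p)⁻¹ :=
    (sum_nonneg fun i _ => frD_nonneg _ i).trans (pi_near (k := k) z1 0).1
  rw [sum_range_zero, zero_add, pow_zero, mul_one] at hE
  have s4 := div_le_div_of_nonneg_right (pow_le_pow_left₀ hE0 hE 6) (by positivity : (0 : ℝ) ≤ 4 ^ t)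
  have t0 : (0 : ℝ) < t := by exact_mod_cast (by omega : 0 < t)
  push_cast at s3 s4
  have s5 := (s1.trans s2).trans (mul_le_mul_of_nonneg_left (add_le_add s3 s4) (by positivity))
  refine (mul_le_mul m2 s5 (by positivity) (by positivity)).trans ?_
  rw [mul_left_comm, mul_comm ε]
  refine mul_le_mul_of_nonneg_left ?_ (by positivity)
  rw [div_le_iff₀ ε0] at h2
  rw [le_div_iff₀ (by positivity)] at h1
  generalize (16 : ℝ) ^ #(sp k j) = C at *
  have c1 : 2 ^ 20 * (t : ℝ) ^ 20 * (C / ((t : ℝ) ^ 7) ^ 3) ≤ ε / 2 := by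
    rw [show 2 ^ 20 * (t : ℝ) ^ 20 * (C / ((t : ℝ) ^ 7) ^ 3) = 2 ^ 20 * C / t by field_simp,
      div_le_iff₀ t0]
    linarith
  have c2 : 2 ^ 20 * (t : ℝ) ^ 20 * ((768 * (t : ℝ) ^ 7) ^ 6 / 4 ^ t) =
      (t : ℝ) ^ 62 / 4 ^ t * (2 ^ 20 * 768 ^ 6) := by ring
  rw [mul_add]
  linarith

end Pool.Agent.HTW
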