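import Pool.Agent.MP_b5e119_nt.GB.BK3
import Pool.Agent.MP_b5e119_nt.GB.MHm
import Pool.Agent.MP_b5e119_nt.GB.Asy3

/-! The Hardy-Littlewood asymptotic for pairs `P`, `P + h` over `k[X]`, `char k = 2`. -/

set_option autoImplicit false

open Polynomial Finset Filter Topology
open scoped Classical BigOperators

noncomputable section
namespace Pool.Agent.HTW
open Pool.Agent.MP_a4a062_nt.C2 Pool.Agent.HGB

theorem twin_full (k : Type) [Field k] [Finite k] [CharP k 2] (ε : ℝ) (hε : 0 < ε) :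
    ∃ n₀ : ℕ, ∀ (n : ℕ) (h : k[X]), n₀ ≤ n → h ≠ 0 → h.natDegree < n →
      (Nat.card k = 2 → X * (X + 1) ∣ h) →
      |(n : ℝ) ^ 2 *
          Nat.card {P : k[X] // P.Monic ∧ P.natDegree = n ∧ Irreducible P ∧ Irreducible (P + h)} /
          (Nat.card k : ℝ) ^ n /
          (∏' p : {p : k[X] // p.Monic ∧ Irreducible p},
            (1 - (if p.1 ∣ h then 1 else 2) / (Nat.card k : ℝ) ^ p.1.natDegree) /
              (1 - 1 / (Nat.card k : ℝ) ^ p.1.natDegree) ^ 2) - 1| ≤ ε := by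
  let _ := Fintype.ofFinite k
  obtain ⟨n₀, H⟩ := eventually_atTop.1 (top4 (Pool.Agent.MP_b5e119_nt.BK.hiv k)
    (Pool.Agent.MP_b5e119_nt.GB.hm1 k) (Pool.Agent.MP_b5e119_nt.GB.hm2 k) hε)
  refine ⟨n₀, fun n F hn h1 h2 h3 => ?_⟩
  have e : ∀ g : k[X], F - g = g + F := fun g => by rw [CharTwo.sub_eq_add, add_comm]
  have a := H n hn n F h1 (by omega) le_rfl (by omega) (fun g hg => by
    obtain ⟨b1, b2⟩ := mem_mon.1 hg
    rw [e]
    refine mem_mon.2 ⟨b1.add_of_left (degree_lt_degree (by omega)), ?_⟩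
    rw [natDegree_add_eq_left_of_natDegree_lt (by omega), b2])
    fun b => h3 (Nat.card_eq_fintype_card.trans b)
  rw [Nat.subtype_card {g ∈ prs k n | Irreducible (F - g)}
    (fun g => by simp only [prs, mem_filter, mem_mon, and_assoc, e]), Nat.card_eq_fintype_card, sq]
  simpa only [nu, ri, qq, mul_one_div] using a

end Pool.Agent.HTW
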