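import Pool.Agent.MP_00acf4_nt.Tw.Twin

/-! The variance series of the prime gaps of `F_2[X]` in binary order. -/

set_option autoImplicit false

open Polynomial Finset Filter Topology
open scoped Classical BigOperators

noncomputable section
namespace Pool.Agent.HTW
open Pool.Agent.MP_a4a062_nt.C2 Pool.Agent.HGB Pool.Agent.MP_b5e119_nt.GB

/-- The natural number whose binary digits are the coefficients of `f`. -/
def enc (f : (ZMod 2)[X]) : ℕ := ∑ i ∈ f.support, 2 ^ i

/-- `m` is the binary value of an irreducible polynomial over the field with two elements. -/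
def PB (m : ℕ) : Prop := ∃ f : (ZMod 2)[X], Irreducible f ∧ enc f = m

theorem z2 : ∀ a : ZMod 2, a ≠ 0 → a = 1 := by decide

theorem enc_inj : Function.Injective enc := fun f g h => by
  have e : f.support = g.support := geomSum_injective le_rfl h
  ext i
  have := congrArg (i ∈ ·) e
  simp only [mem_support_iff, eq_iff_iff] at this
  by_cases a : f.coeff i = 0
  · rw [a]; exact (not_not.1 fun b => this.2 b a).symm
  · rw [z2 _ a, z2 _ (this.1 a)]

theorem enc_add (f g : (ZMod 2)[X]) : enc (f + g) ≤ enc f + enc g :=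
  (sum_le_sum_of_subset support_add).trans
    ((Nat.le_add_right _ _).trans (sum_union_inter (f := fun i => 2 ^ i)).le)

theorem enc_lt (f : (ZMod 2)[X]) : enc f < 2 ^ (f.natDegree + 1) :=
  Nat.geomSum_lt le_rfl fun _ hi => Nat.lt_succ_of_le (le_natDegree_of_mem_supp _ hi)

theorem le_enc {f : (ZMod 2)[X]} (h : f ≠ 0) : 2 ^ f.natDegree ≤ enc f :=
  single_le_sum (f := fun i => 2 ^ i) (fun _ _ => Nat.zero_le _) (natDegree_mem_support_of_nonzero h)

theorem mem_prs2 {f : (ZMod 2)[X]} (h : Irreducible f) : f ∈ prs (ZMod 2) f.natDegree :=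
  mm_prs.2 ⟨z2 _ (leadingCoeff_ne_zero.2 h.ne_zero), rfl, h⟩

theorem qq2 : qq (ZMod 2) = 2 := by simp [qq]

theorem cum_le (d : ℕ) :
    ((d : ℝ) + 2) * ∑ e ∈ range (d + 1), (#(prs (ZMod 2) e) : ℝ) ≤ 12 * 2 ^ d := by
  induction d with
  | zero =>
    have a : (#(prs (ZMod 2) 0) : ℝ) ≤ #(mon (ZMod 2) 0) := by exact_mod_cast card_filter_le _ _
    rw [card_mon, pow_zero] at a
    simp only [zero_add, sum_range_one, Nat.cast_zero, pow_zero]
    linarith
  | succ d ih =>
    have a := fr_prs_le (k := ZMod 2) (d + 1)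
    have b : 0 ≤ ∑ e ∈ range (d + 1), (#(prs (ZMod 2) e) : ℝ) := by positivity
    have c : (0 : ℝ) ≤ #(prs (ZMod 2) (d + 1)) := by positivity
    have e : (0 : ℝ) ≤ d := by positivity
    rw [qq2] at a
    rw [sum_range_succ]
    push_cast at a ⊢
    rw [pow_succ] at a ⊢
    nlinarith [mul_nonneg e b, mul_nonneg e c]

theorem count_le {f : (ZMod 2)[X]} :
    ((f.natDegree : ℝ) + 2) * Nat.count PB (enc f) ≤ 12 * 2 ^ f.natDegree := by
  refine le_trans (mul_le_mul_of_nonneg_left ?_ (by positivity)) (cum_le _)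
  rw [← Nat.cast_sum, Nat.cast_le, Nat.count_eq_card_filter_range]
  refine le_trans (card_le_card (t := ((range (f.natDegree + 1)).biUnion
    (prs (ZMod 2))).image enc) fun m hm => ?_) (card_image_le.trans card_biUnion_le)
  obtain ⟨h1, g, h2, rfl⟩ := mem_filter.1 hm
  refine mem_image.2 ⟨g, mem_biUnion.2 ⟨_, mem_range.2 ?_, mem_prs2 h2⟩, rfl⟩
  exact (Nat.pow_lt_pow_iff_right one_lt_two).1
    ((le_enc h2.ne_zero).trans_lt ((mem_range.1 h1).trans (enc_lt f)))

/-- The smaller members of the pairs `P`, `P + X (X + 1)` of degree `d`. -/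
def TW (d : ℕ) : Finset (ZMod 2)[X] :=
  {P ∈ prs (ZMod 2) d | Irreducible (P + X * (X + 1)) ∧ enc P < enc (P + X * (X + 1))}

theorem hdeg : (X * (X + 1) : (ZMod 2)[X]).natDegree = 2 := by
  rw [← C_1, natDegree_X_mul (X_add_C_ne_zero 1), natDegree_X_add_C]

theorem tw_ge : ∃ c : ℝ, 0 < c ∧ ∀ᶠ d : ℕ in atTop, c * 2 ^ d ≤ (d : ℝ) ^ 2 * #(TW d) := by
  obtain ⟨n₀, H⟩ := twin_full (ZMod 2) (1 / 2) (by norm_num)
  have h0 : (X * (X + 1) : (ZMod 2)[X]) ≠ 0 := fun h => by simpa [h] using hdeg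
  have H2 := fun n (a : n₀ ≤ n) (b : 2 < n) => H n _ a h0 (hdeg.trans_lt b) fun _ => dvd_rfl
  generalize (∏' p : {p : (ZMod 2)[X] // p.Monic ∧ Irreducible p}, _ : ℝ) = S at H2
  have S0 : 0 < S := by
    have a := (abs_le.1 (H2 (n₀ + 3) (by omega) (by omega))).1
    by_contra b
    have := div_nonpos_of_nonneg_of_nonpos (by positivity : 0 ≤ ((n₀ + 3 : ℕ) : ℝ) ^ 2 *
      Nat.card {P : (ZMod 2)[X] // P.Monic ∧ P.natDegree = n₀ + 3 ∧ Irreducible P ∧
        Irreducible (P + X * (X + 1))} / (Nat.card (ZMod 2) : ℝ) ^ (n₀ + 3)) (not_lt.1 b)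
    linarith
  refine ⟨S / 4, by positivity, ?_⟩
  filter_upwards [eventually_ge_atTop n₀, eventually_gt_atTop 2] with d d1 d2
  have a := (abs_le.1 (H2 d d1 d2)).1
  have ee : ∀ P : (ZMod 2)[X], P + X * (X + 1) + X * (X + 1) = P := fun P => by
    rw [add_assoc, CharTwo.add_self_eq_zero, add_zero]
  have b : Nat.card {P : (ZMod 2)[X] // P.Monic ∧ P.natDegree = d ∧ Irreducible P ∧
      Irreducible (P + X * (X + 1))} ≤ #(TW d) + #(TW d) := by
    rw [Nat.subtype_card {g ∈ prs (ZMod 2) d | Irreducible (g + X * (X + 1))}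
      (fun g => by simp only [mem_filter, mm_prs, and_assoc])]
    refine le_trans (card_le_card (t := TW d ∪ (TW d).image (· + X * (X + 1))) fun P hP => ?_)
      ((card_union_le _ _).trans (Nat.add_le_add_left card_image_le _))
    obtain ⟨p1, p2⟩ := mem_filter.1 hP
    rcases lt_trichotomy (enc P) (enc (P + X * (X + 1))) with c | c | c
    · exact mem_union_left _ (mem_filter.2 ⟨p1, p2, c⟩)
    · exact absurd (by simpa using enc_inj c) h0
    · refine mem_union_right _ (mem_image.2 ⟨_, mem_filter.2 ⟨?_, ?_⟩, ee P⟩)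
      · have := mem_prs2 p2
        rwa [natDegree_add_eq_left_of_natDegree_lt (by rw [hdeg, (mm_prs.1 p1).2.1]; exact d2),
          (mm_prs.1 p1).2.1] at this
      · rw [ee]; exact ⟨(mm_prs.1 p1).2.2, c⟩
  have b' : (Nat.card {P : (ZMod 2)[X] // P.Monic ∧ P.natDegree = d ∧ Irreducible P ∧
      Irreducible (P + X * (X + 1))} : ℝ) ≤ #(TW d) + #(TW d) := by exact_mod_cast b
  have c := mul_le_mul_of_nonneg_left b' (sq_nonneg (d : ℝ))
  rw [Nat.card_zmod, le_sub_iff_add_le, le_div_iff₀ S0, le_div_iff₀ (by positivity)] at a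
  push_cast at a
  linarith

theorem pb_inf : (Set.ofPred PB).Infinite := by
  refine Set.infinite_of_forall_exists_gt fun m => ?_
  have a := card_prs (k := ZMod 2) (Nat.succ_pos m)
  obtain ⟨P, hP⟩ : (prs (ZMod 2) (m + 1)).Nonempty := by
    rw [← card_pos]
    by_contra b
    rw [Nat.eq_zero_of_not_pos b, qq2] at a
    have : (0 : ℝ) < 2 ^ (m + 1) := by positivity
    simp at a
    linarith
  obtain ⟨-, p2, p3⟩ := mm_prs.1 hP
  refine ⟨_, ⟨P, p3, rfl⟩, lt_of_lt_of_le ?_ (le_enc p3.ne_zero)⟩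
  rw [p2]
  exact (Nat.lt_succ_self m).trans Nat.lt_two_pow_self

theorem enc_h : enc (X * (X + 1)) ≤ 7 := by
  have := enc_lt (X * (X + 1))
  rw [hdeg] at this
  omega

theorem gap_ge (n : ℕ) : (1 : ℝ) ≤ (Nat.nth PB (n + 1) : ℝ) - Nat.nth PB n := by
  have : Nat.nth PB n + 1 ≤ Nat.nth PB (n + 1) := Nat.nth_strictMono pb_inf (Nat.lt_succ_self n)
  have : (Nat.nth PB n : ℝ) + 1 ≤ Nat.nth PB (n + 1) := by exact_mod_cast this
  linarith

theorem not_sum : ¬ Summable fun n : ℕ =>
    1 / (((n : ℝ) + 1) * ((Nat.nth PB (n + 1) : ℝ) - Nat.nth PB n) ^ 2) := fun hu => by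
  set u : ℕ → ℝ := fun n => 1 / (((n : ℝ) + 1) * ((Nat.nth PB (n + 1) : ℝ) - Nat.nth PB n) ^ 2)
  have u0 : ∀ n, 0 ≤ u n := fun n => by positivity
  have m1 : ∀ {d P}, P ∈ TW d → P.natDegree = d ∧ PB (enc P) := fun h =>
    ⟨(mm_prs.1 (mem_filter.1 h).1).2.1, _, (mm_prs.1 (mem_filter.1 h).1).2.2, rfl⟩
  have key : Summable fun d : ℕ => ∑ P ∈ TW d, u (Nat.count PB (enc P)) :=
    summable_of_sum_le (c := ∑' n, u n) (fun d => sum_nonneg fun _ _ => u0 _) fun s => by
      rw [← sum_biUnion fun a _ b _ hab => disjoint_left.2 fun P h1 h2 =>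
        hab ((m1 h1).1.symm.trans (m1 h2).1), ← sum_image (g := fun P => Nat.count PB (enc P))]
      · exact hu.sum_le_tsum _ fun _ _ => u0 _
      · intro P h1 Q h2 e
        obtain ⟨_, -, h1⟩ := mem_biUnion.1 h1
        obtain ⟨_, -, h2⟩ := mem_biUnion.1 h2
        exact enc_inj (Nat.count_injective (m1 h1).2 (m1 h2).2 e)
  obtain ⟨c, c0, hc⟩ := tw_ge
  refine Real.not_summable_natCast_inv ((summable_mul_left_iff (a := c / 588) (by positivity)).1
    (key.of_norm_bounded_eventually_nat ?_))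
  filter_upwards [hc, eventually_gt_atTop 2] with d h1 h2
  have d0 : (0 : ℝ) < d := by positivity
  have a : ∀ P ∈ TW d, (d : ℝ) / (588 * 2 ^ d) ≤ u (Nat.count PB (enc P)) := fun P hP => by
    obtain ⟨p1, p2, p3⟩ := mem_filter.1 hP
    have b1 := Nat.count_strict_mono (m1 hP).2 p3
    have b2 := Nat.nth_monotone pb_inf (Nat.succ_le_of_lt b1)
    rw [Nat.nth_count (p := PB) ⟨_, p2, rfl⟩] at b2
    have b3 := (b2.trans (enc_add _ _)).trans (Nat.add_le_add_left enc_h _)
    have b4 := count_le (f := P + X * (X + 1))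
    rw [natDegree_add_eq_left_of_natDegree_lt (by rw [hdeg, (m1 hP).1]; exact h2), (m1 hP).1] at b4
    have b5 := gap_ge (Nat.count PB (enc P))
    have b6 : (Nat.nth PB (Nat.count PB (enc P) + 1) : ℝ) ≤ enc P + 7 := by exact_mod_cast b3
    have b7 : (Nat.count PB (enc P) : ℝ) + 1 ≤ Nat.count PB (enc (P + X * (X + 1))) := by
      exact_mod_cast b1
    simp only [u]
    rw [Nat.nth_count (m1 hP).2] at b5 ⊢
    rw [div_le_div_iff₀ (by positivity) (by positivity), one_mul, ← mul_assoc]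
    calc _ ≤ (12 * 2 ^ d : ℝ) * 7 ^ 2 := by
          refine mul_le_mul (le_trans ?_ b4) (pow_le_pow_left₀ (by linarith) (by linarith) _)
            (sq_nonneg _) (by positivity)
          gcongr
          linarith
      _ = _ := by ring
  refine le_trans ?_ (card_nsmul_le_sum _ _ _ a)
  rw [Real.norm_of_nonneg (by positivity), nsmul_eq_mul, ← div_eq_mul_inv, div_div, ← mul_div_assoc,
    div_le_div_iff₀ (by positivity) (by positivity)]
  nlinarith

/-- With the primes of `F_2[X]` in binary order, the variance series converges iff `θ > 1 / 2`. -/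
theorem variance (θ : ℝ) : (Summable fun n : ℕ =>
    (1 / (((n : ℝ) + 1) ^ θ * ((Nat.nth PB (n + 1) : ℝ) - Nat.nth PB n))) ^ 2) ↔ 1 / 2 < θ := by
  have e : ∀ n : ℕ, (((n : ℝ) + 1) ^ θ) ^ 2 = ((n : ℝ) + 1) ^ (2 * θ) := fun n => by
    rw [← Real.rpow_natCast, ← Real.rpow_mul (by positivity), mul_comm]; norm_num
  have n1 : ∀ n : ℕ, (1 : ℝ) ≤ n + 1 := fun n => by linarith [n.cast_nonneg (α := ℝ)]
  simp only [one_div_pow, mul_pow, e]
  refine ⟨fun h => not_le.1 fun a => not_sum (h.of_nonneg_of_le (fun n => by positivity) fun n => ?_),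
    fun h => ?_⟩
  · have := gap_ge n
    refine one_div_le_one_div_of_le (by positivity) (mul_le_mul_of_nonneg_right ?_ (sq_nonneg _))
    exact (Real.rpow_le_rpow_of_exponent_le (n1 n) (by linarith)).trans (Real.rpow_one _).le
  · have a := (summable_nat_add_iff 1).2 (Real.summable_one_div_nat_rpow.2 (by linarith : 1 < 2 * θ))
    push_cast at a
    refine a.of_nonneg_of_le (fun n => by positivity) fun n => ?_
    exact one_div_le_one_div_of_le (by positivity)
      (le_mul_of_one_le_right (by positivity) (one_le_pow₀ (gap_ge n)))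

end Pool.Agent.HTW
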